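import Mathlib

/-!
Definitions for the problem on Hoelder continuous vorticity direction (3D Navier-Stokes).
-/

open MeasureTheory Set
open scoped ContDiff

namespace Pool.Agent.Lib.P1c98a8

/-- Physical space `ℝ³`. -/
abbrev E3 := EuclideanSpace ℝ (Fin 3)

/-- The `j`-th unit coordinate vector. -/
noncomputable def e3 (j : Fin 3) : E3 := EuclideanSpace.single j 1

/-- `D` is the weak (distributional) Jacobian of `v`: `D x i j` stands for `∂_j v_i (x)`. -/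
def IsWeakGrad (v : E3 → E3) (D : E3 → Fin 3 → Fin 3 → ℝ) : Prop :=
  ∀ i j : Fin 3, ∀ φ : E3 → ℝ, ContDiff ℝ ∞ φ → HasCompactSupport φ →
    ∫ x, v x i * fderiv ℝ φ x (e3 j) = - ∫ x, D x i j * φ x

/-- `v ∈ H¹(ℝ³)³` with weak Jacobian `D`, and `v` is divergence free. -/
structure IsH1Solenoidal (v : E3 → E3) (D : E3 → Fin 3 → Fin 3 → ℝ) : Prop where
  /-- `v ∈ L²` -/
  memLp : MemLp v 2 volume
  /-- every entry of the Jacobian is in `L²` -/
  memLp_grad : ∀ i j, MemLp (fun x => D x i j) 2 volume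
  /-- `D` is the weak Jacobian -/
  grad : IsWeakGrad v D
  /-- `div v = 0` almost everywhere -/
  div_free : ∀ᵐ x, ∑ i, D x i i = 0

/-- The vorticity `∇ × v`, computed from the Jacobian `D x i j = ∂_j v_i (x)`. -/
noncomputable def vort (D : E3 → Fin 3 → Fin 3 → ℝ) (x : E3) : E3 :=
  !₂[D x 2 1 - D x 1 2, D x 0 2 - D x 2 0, D x 1 0 - D x 0 1]

/-- `|∇v|² = ∑_{i,j} (∂_j v_i)²` -/
noncomputable def gradSq (D : E3 → Fin 3 → Fin 3 → ℝ) (x : E3) : ℝ :=
  ∑ i, ∑ j, D x i j ^ 2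

/-- the classical partial derivative `∂_j φ_i (x)` of a smooth vector field -/
noncomputable def pd (φ : E3 → E3) (i j : Fin 3) (x : E3) : ℝ :=
  fderiv ℝ (fun y => φ y i) x (e3 j)

/-- Solenoidal space-time test fields `φ ∈ C_c^∞((-∞,T) × ℝ³)³`, `div φ = 0`. -/
structure IsTestField (T : ℝ) (φ : ℝ → E3 → E3) : Prop where
  /-- jointly smooth -/
  smooth : ContDiff ℝ ∞ (fun p : ℝ × E3 => φ p.1 p.2)
  /-- compactly supported in space-time -/
  compact : HasCompactSupport (fun p : ℝ × E3 => φ p.1 p.2)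
  /-- supported in times `t < T` -/
  before : ∀ p ∈ tsupport (fun p : ℝ × E3 => φ p.1 p.2), p.1 < T
  /-- divergence free at every time -/
  div_free : ∀ t x, ∑ i, pd (φ t) i i x = 0

/-- `u · ∂_t φ` at `(x,t)` -/
noncomputable def timePart (u φ : ℝ → E3 → E3) (t : ℝ) (x : E3) : ℝ :=
  ∑ i, u t x i * deriv (fun s => φ s x i) t

/-- `(v ⊗ v) : ∇φ = ∑_{i,j} v_i v_j ∂_j φ_i` -/
noncomputable def convPart (v φ : E3 → E3) (x : E3) : ℝ :=
  ∑ i, ∑ j, v x i * v x j * pd φ i j x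

/-- `∇v : ∇φ = ∑_{i,j} ∂_j v_i ∂_j φ_i` -/
noncomputable def viscPart (D : E3 → Fin 3 → Fin 3 → ℝ) (φ : E3 → E3) (x : E3) : ℝ :=
  ∑ i, ∑ j, D x i j * pd φ i j x

/-- The Navier-Stokes equations (unit viscosity, no force, initial velocity `u₀`) in the sense of
distributions on `[0,T) × ℝ³`, tested with solenoidal fields. -/
def WeakForm (T : ℝ) (u₀ : E3 → E3) (u : ℝ → E3 → E3) (Du : ℝ → E3 → Fin 3 → Fin 3 → ℝ) : Prop :=
  ∀ φ : ℝ → E3 → E3, IsTestField T φ →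
    (∫ t in Ioo 0 T, ∫ x, (timePart u φ t x + convPart (u t) (φ t) x - viscPart (Du t) (φ t) x))
      + ∫ x, inner ℝ (u₀ x) (φ 0 x) = 0

/-- weak continuity on `[0,T)` with values in `L²` -/
def WeaklyContinuous (T : ℝ) (u : ℝ → E3 → E3) : Prop :=
  ∀ w : E3 → E3, MemLp w 2 volume →
    ContinuousOn (fun t => ∫ x, inner ℝ (u t x) (w x)) (Ico 0 T)

/-- the energy inequality on `[0,T)` -/
def EnergyInequality (T : ℝ) (u₀ : E3 → E3) (u : ℝ → E3 → E3)
    (Du : ℝ → E3 → Fin 3 → Fin 3 → ℝ) : Prop :=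
  ∀ t ∈ Ico 0 T,
    (∫ x, ‖u t x‖ ^ 2) + 2 * ∫ s in Ioo 0 t, ∫ x, gradSq (Du s) x ≤ ∫ x, ‖u₀ x‖ ^ 2

/-- Leray-Hopf weak solutions of the incompressible Navier-Stokes equations on `ℝ³ × (0,T)`
with unit viscosity, zero force and initial velocity `u₀`.  `Du t x i j` stands for
`∂_j u_i (x,t)`. -/
structure IsLerayHopf (T : ℝ) (u₀ : E3 → E3) (u : ℝ → E3 → E3)
    (Du : ℝ → E3 → Fin 3 → Fin 3 → ℝ) : Prop where
  /-- joint measurability of `u` -/
  meas : AEStronglyMeasurable (fun p : ℝ × E3 => u p.1 p.2)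
    ((volume.restrict (Ioo 0 T)).prod volume)
  /-- joint measurability of the Jacobian -/
  meas_grad : ∀ i j, AEStronglyMeasurable (fun p : ℝ × E3 => Du p.1 p.2 i j)
    ((volume.restrict (Ioo 0 T)).prod volume)
  /-- `u(t) ∈ L²` for all `t` -/
  memLp : ∀ t ∈ Ico 0 T, MemLp (u t) 2 volume
  /-- `u ∈ L^∞(0,T;L²)` -/
  bounded : ∃ M : ℝ, ∀ t ∈ Ico 0 T, ∫ x, ‖u t x‖ ^ 2 ≤ M
  /-- for almost every `t`, `u(t) ∈ H¹` with Jacobian `Du t`, and `div u(t) = 0` -/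
  h1 : ∀ᵐ t ∂(volume.restrict (Ioo 0 T)), IsH1Solenoidal (u t) (Du t)
  /-- `∇u ∈ L²(0,T;L²)` -/
  dissipation : ∫⁻ t in Ioo 0 T, ∫⁻ x, ENNReal.ofReal (gradSq (Du t) x) < ⊤
  /-- weak continuity in time -/
  weak_cont : WeaklyContinuous T u
  /-- initial datum -/
  initial : u 0 =ᵐ[volume] u₀
  /-- the equations in the sense of distributions -/
  weak_form : WeakForm T u₀ u Du
  /-- the energy inequality -/
  energy : EnergyInequality T u₀ u Du

/-- A vector field `w` on `ℝ³` (at a fixed time) has `β`-Hoelder continuous direction with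
constant `c`: `sin θ(x,y) ≤ c |x - y|^β` for almost all pairs `x, y` of points at which `w` does
not vanish, where `θ(x,y) ∈ [0,π]` is the angle between `w x` and `w y`. -/
def HolderDirection (β c : ℝ) (w : E3 → E3) : Prop :=
  ∀ᵐ x, ∀ᵐ y, w x ≠ 0 → w y ≠ 0 →
    Real.sin (InnerProductGeometry.angle (w x) (w y)) ≤ c * ‖x - y‖ ^ β

/-- `u ∈ L^s(0,T;L^q(ℝ³))` for finite exponents `s, q`. -/
def InLsLq (T s q : ℝ) (u : ℝ → E3 → E3) : Prop :=
  ∫⁻ t in Ioo 0 T, (eLpNorm (u t) (ENNReal.ofReal q) volume) ^ s < ⊤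

end Pool.Agent.Lib.P1c98a8
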