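import Pool.Agent.Lib.P1c98a8.TubeBound

/-!
Radial mollifiers `ker ρ z = ρ⁻³ b(|z|²/ρ²)` and the associated gradient kernels.
-/

open MeasureTheory Set Filter Topology
open scoped ContDiff ENNReal

namespace Pool.Agent.Lib.P1c98a8

/-- the radial profile -/
noncomputable def bF (s : ℝ) : ℝ := expNegInvGlue (1 - s)

lemma bF_contDiff : ContDiff ℝ ∞ bF := by
  unfold bF
  fun_prop

lemma bF_nonneg (s : ℝ) : 0 ≤ bF s := expNegInvGlue.nonneg _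

lemma bF_le_one (s : ℝ) : bF s ≤ 1 := by
  unfold bF expNegInvGlue
  split_ifs with h
  · exact zero_le_one
  · rw [Real.exp_le_one_iff]
    have : 0 < (1 - s)⁻¹ := inv_pos.2 (not_le.1 h)
    linarith

lemma bF_zero {s : ℝ} (hs : 1 ≤ s) : bF s = 0 := expNegInvGlue.zero_of_nonpos (by linarith)

lemma bF_pos {s : ℝ} (hs : s < 1) : 0 < bF s := expNegInvGlue.pos_of_pos (by linarith)

lemma bF_hasDerivAt (s : ℝ) : HasDerivAt bF (deriv bF s) s :=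
  ((bF_contDiff.differentiable (by norm_num)) s).hasDerivAt

lemma dbF_continuous : Continuous (deriv bF) :=
  bF_contDiff.continuous_deriv (by exact_mod_cast le_top)

lemma dbF_zero {s : ℝ} (hs : 1 ≤ s) : deriv bF s = 0 := by
  have : IsLocalMin bF s := by
    refine Eventually.of_forall fun t => ?_
    rw [bF_zero hs]
    exact bF_nonneg t
  exact this.deriv_eq_zero

lemma exists_Mb : ∃ M : ℝ, 0 ≤ M ∧ ∀ s, 0 ≤ s → |deriv bF s| ≤ M := by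
  obtain ⟨M, hM⟩ := (isCompact_Icc (a := (0 : ℝ)) (b := 1)).exists_bound_of_continuousOn
    dbF_continuous.continuousOn
  have hM0 : 0 ≤ M := (norm_nonneg _).trans (hM 0 (by simp))
  refine ⟨M, hM0, fun s hs => ?_⟩
  by_cases h : s ≤ 1
  · exact hM s ⟨hs, h⟩
  · rw [dbF_zero (not_le.1 h).le]
    simpa using hM0

/-- bound for `b'` on `[0,∞)` -/
noncomputable def Mb : ℝ := Classical.choose exists_Mb

lemma Mb_nonneg : 0 ≤ Mb := (Classical.choose_spec exists_Mb).1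

lemma abs_dbF_le {s : ℝ} (hs : 0 ≤ s) : |deriv bF s| ≤ Mb := (Classical.choose_spec exists_Mb).2 s hs

/-- the mollifier -/
noncomputable def ker (ρ : ℝ) (z : E3) : ℝ := (ρ ^ 3)⁻¹ * bF (‖z‖ ^ 2 / ρ ^ 2)

/-- the gradient kernel -/
noncomputable def gker (ρ : ℝ) (j : Fin 3) (z : E3) : ℝ := (ρ ^ 4)⁻¹ * (z j * bF (‖z‖ ^ 2 / ρ ^ 2))

/-- its derivatives (symmetric in `i, j`) -/
noncomputable def dgker (ρ : ℝ) (i j : Fin 3) (z : E3) : ℝ :=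
  (ρ ^ 4)⁻¹ * ((if i = j then bF (‖z‖ ^ 2 / ρ ^ 2) else 0)
    + z i * z j * deriv bF (‖z‖ ^ 2 / ρ ^ 2) * (2 / ρ ^ 2))

lemma dgker_symm (ρ : ℝ) (i j : Fin 3) (z : E3) : dgker ρ i j z = dgker ρ j i z := by
  unfold dgker
  congr 2
  · by_cases h : i = j
    · simp [h]
    · simp [h, Ne.symm h]
  · ring

lemma sum_dgker (ρ : ℝ) (z : E3) : ∑ j, dgker ρ j j z
    = (ρ ^ 4)⁻¹ * (3 * bF (‖z‖ ^ 2 / ρ ^ 2) + ‖z‖ ^ 2 * deriv bF (‖z‖ ^ 2 / ρ ^ 2) * (2 / ρ ^ 2)) := by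
  have hz : ‖z‖ ^ 2 = z 0 * z 0 + z 1 * z 1 + z 2 * z 2 := by
    rw [EuclideanSpace.norm_sq_eq]
    simp [Fin.sum_univ_three, sq]
  simp only [dgker, Fin.sum_univ_three, if_true]
  generalize bF (‖z‖ ^ 2 / ρ ^ 2) = b0
  generalize deriv bF (‖z‖ ^ 2 / ρ ^ 2) = b1
  rw [hz]
  ring

lemma hasDerivAt_ker (z : E3) {ρ : ℝ} (hρ : 0 < ρ) :
    HasDerivAt (fun ρ => ker ρ z) (-(∑ j, dgker ρ j j z)) ρ := by
  rw [sum_dgker]
  have h1 : HasDerivAt (fun ρ : ℝ => (ρ ^ 3)⁻¹) (-(3 * ρ ^ 2) / (ρ ^ 3) ^ 2) ρ := by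
    have := (hasDerivAt_pow 3 ρ).fun_inv (by positivity)
    simpa using this
  have h2 : HasDerivAt (fun ρ : ℝ => ‖z‖ ^ 2 / ρ ^ 2) (-(‖z‖ ^ 2 * (2 * ρ)) / (ρ ^ 2) ^ 2) ρ := by
    have := (hasDerivAt_const ρ (‖z‖ ^ 2)).fun_div (hasDerivAt_pow 2 ρ) (by positivity)
    simpa using this
  have h3 := (bF_hasDerivAt (‖z‖ ^ 2 / ρ ^ 2)).comp ρ h2
  have h4 := h1.mul h3
  refine HasDerivAt.congr_deriv (f := fun ρ => ker ρ z) h4 ?_
  simp only [Function.comp_apply]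
  generalize bF (‖z‖ ^ 2 / ρ ^ 2) = b0
  generalize deriv bF (‖z‖ ^ 2 / ρ ^ 2) = b1
  field_simp
  ring

lemma ker_continuous (ρ : ℝ) : Continuous (ker ρ) := by
  unfold ker
  have := bF_contDiff.continuous
  fun_prop

lemma gker_contDiff (ρ : ℝ) (j : Fin 3) : ContDiff ℝ ∞ (gker ρ j) := by
  unfold gker
  have h1 : ContDiff ℝ ∞ (fun z : E3 => ‖z‖ ^ 2) := contDiff_norm_sq ℝ
  have h2 : ContDiff ℝ ∞ (fun z : E3 => bF (‖z‖ ^ 2 / ρ ^ 2)) :=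
    bF_contDiff.comp (h1.div_const _)
  have h3 : ContDiff ℝ ∞ (fun z : E3 => z j) := by fun_prop
  exact contDiff_const.mul (h3.mul h2)

lemma sq_div_ge {z : E3} {ρ : ℝ} (hρ : 0 < ρ) (h : ρ ≤ ‖z‖) : 1 ≤ ‖z‖ ^ 2 / ρ ^ 2 := by
  rw [one_le_div (by positivity)]
  gcongr

lemma ker_zero {z : E3} {ρ : ℝ} (hρ : 0 < ρ) (h : ρ ≤ ‖z‖) : ker ρ z = 0 := by
  simp [ker, bF_zero (sq_div_ge hρ h)]

lemma gker_zero {z : E3} {ρ : ℝ} (hρ : 0 < ρ) (h : ρ ≤ ‖z‖) (j : Fin 3) : gker ρ j z = 0 := by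
  simp [gker, bF_zero (sq_div_ge hρ h)]

lemma dgker_zero {z : E3} {ρ : ℝ} (hρ : 0 < ρ) (h : ρ ≤ ‖z‖) (i j : Fin 3) : dgker ρ i j z = 0 := by
  simp [dgker, bF_zero (sq_div_ge hρ h), dbF_zero (sq_div_ge hρ h)]

lemma ker_nonneg {ρ : ℝ} (hρ : 0 < ρ) (z : E3) : 0 ≤ ker ρ z :=
  mul_nonneg (by positivity) (bF_nonneg _)

lemma ker_le {ρ : ℝ} (hρ : 0 < ρ) (z : E3) : ker ρ z ≤ (ρ ^ 3)⁻¹ := by
  unfold ker
  exact mul_le_of_le_one_right (by positivity) (bF_le_one _)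

lemma abs_gker_le {ρ : ℝ} (hρ : 0 < ρ) (j : Fin 3) (z : E3) : |gker ρ j z| ≤ (ρ ^ 3)⁻¹ := by
  by_cases h : ρ ≤ ‖z‖
  · rw [gker_zero hρ h]; simp; positivity
  · push Not at h
    have hz : |z j| ≤ ρ := by
      have : ‖z j‖ ≤ ‖z‖ := PiLp.norm_apply_le z j
      rw [Real.norm_eq_abs] at this
      linarith
    unfold gker
    rw [abs_mul, abs_mul, abs_of_nonneg (bF_nonneg _), abs_of_pos (by positivity)]
    calc (ρ ^ 4)⁻¹ * (|z j| * bF (‖z‖ ^ 2 / ρ ^ 2)) ≤ (ρ ^ 4)⁻¹ * (ρ * 1) :=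
          mul_le_mul_of_nonneg_left (mul_le_mul hz (bF_le_one _) (bF_nonneg _) hρ.le)
            (by positivity)
      _ = (ρ ^ 3)⁻¹ := by field_simp

lemma hasFDerivAt_gker (x y : E3) {ρ : ℝ} (j : Fin 3) :
    HasFDerivAt (fun y => gker ρ j (x - y))
      (-((ρ ^ 4)⁻¹ • (bF (‖x - y‖ ^ 2 / ρ ^ 2) • (EuclideanSpace.proj j : E3 →L[ℝ] ℝ)
        + ((x - y) j * deriv bF (‖x - y‖ ^ 2 / ρ ^ 2) * (2 / ρ ^ 2)) • innerSL ℝ (x - y)))) y := by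
  have h1 : HasFDerivAt (fun z : E3 => z j) (EuclideanSpace.proj j : E3 →L[ℝ] ℝ) (x - y) :=
    (EuclideanSpace.proj j : E3 →L[ℝ] ℝ).hasFDerivAt
  have h2 : HasFDerivAt (fun z : E3 => ‖z‖ ^ 2 / ρ ^ 2) ((ρ ^ 2)⁻¹ • (2 • innerSL ℝ (x - y)))
      (x - y) := by
    have := (hasStrictFDerivAt_norm_sq (x - y)).hasFDerivAt.const_mul ((ρ ^ 2)⁻¹)
    simpa [div_eq_inv_mul] using this
  have h3 := (bF_hasDerivAt (‖x - y‖ ^ 2 / ρ ^ 2)).comp_hasFDerivAt (x - y) h2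
  have h4 := (h1.mul h3).const_mul ((ρ ^ 4)⁻¹)
  have h5 : HasFDerivAt (fun y : E3 => x - y) (-(ContinuousLinearMap.id ℝ E3)) y :=
    (hasFDerivAt_id y).const_sub x
  have h6 := h4.comp y h5
  have h7 : (fun y => gker ρ j (x - y)) = ((fun z : E3 => (ρ ^ 4)⁻¹ *
      (z j * (bF ∘ fun z => ‖z‖ ^ 2 / ρ ^ 2) z)) ∘ fun y => x - y) := by
    ext y; simp [gker]
  rw [h7]
  refine HasFDerivAt.congr_fderiv h6 ?_
  ext v
  simp
  ring

lemma fderiv_gker_apply (x y : E3) {ρ : ℝ} (i j : Fin 3) :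
    fderiv ℝ (fun y => gker ρ j (x - y)) y (e3 i) = - dgker ρ i j (x - y) := by
  rw [(hasFDerivAt_gker x y j).fderiv]
  simp only [neg_apply, smul_apply, add_apply, dgker, smul_eq_mul, innerSL_apply_apply, e3]
  congr 2
  have h1 : (EuclideanSpace.proj j : E3 →L[ℝ] ℝ) (EuclideanSpace.single i (1 : ℝ))
      = if i = j then 1 else 0 := by
    simp [eq_comm]
  have h2 : inner ℝ (x - y) (EuclideanSpace.single i (1 : ℝ)) = (x - y) i := by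
    rw [EuclideanSpace.inner_single_right]; simp
  rw [h1, h2]
  by_cases h : i = j
  · simp [h]; ring
  · simp [h]; ring

lemma norm_fderiv_gker_le (x y : E3) {ρ : ℝ} (hρ : 0 < ρ) (j : Fin 3) :
    ‖fderiv ℝ (fun y => gker ρ j (x - y)) y‖ ≤ ((1 + 2 * Mb) * (ρ ^ 3)⁻¹) / ρ := by
  rw [(hasFDerivAt_gker x y j).fderiv, norm_neg, norm_smul]
  have hMb := Mb_nonneg
  by_cases h : ρ ≤ ‖x - y‖
  · rw [bF_zero (sq_div_ge hρ h), dbF_zero (sq_div_ge hρ h)]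
    simp
    positivity
  · push Not at h
    have hz : |(x - y) j| ≤ ρ := by
      have : ‖(x - y) j‖ ≤ ‖x - y‖ := PiLp.norm_apply_le (x - y) j
      rw [Real.norm_eq_abs] at this
      linarith
    have hproj : ‖(EuclideanSpace.proj j : E3 →L[ℝ] ℝ)‖ ≤ 1 := by
      apply ContinuousLinearMap.opNorm_le_bound _ zero_le_one
      intro v
      rw [one_mul]
      exact PiLp.norm_apply_le v j
    rw [Real.norm_eq_abs, abs_of_pos (by positivity)]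
    calc (ρ ^ 4)⁻¹ * ‖bF (‖x - y‖ ^ 2 / ρ ^ 2) • (EuclideanSpace.proj j : E3 →L[ℝ] ℝ)
        + ((x - y) j * deriv bF (‖x - y‖ ^ 2 / ρ ^ 2) * (2 / ρ ^ 2)) • innerSL ℝ (x - y)‖
        ≤ (ρ ^ 4)⁻¹ * (‖bF (‖x - y‖ ^ 2 / ρ ^ 2)‖ * ‖(EuclideanSpace.proj j : E3 →L[ℝ] ℝ)‖
          + ‖((x - y) j * deriv bF (‖x - y‖ ^ 2 / ρ ^ 2) * (2 / ρ ^ 2))‖ * ‖innerSL ℝ (x - y)‖) := by
          gcongr
          refine (norm_add_le _ _).trans ?_
          rw [norm_smul, norm_smul]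
      _ ≤ (ρ ^ 4)⁻¹ * (1 * 1 + (ρ * Mb * (2 / ρ ^ 2)) * ρ) := by
          gcongr
          · rw [Real.norm_eq_abs, abs_of_nonneg (bF_nonneg _)]; exact bF_le_one _
          · rw [norm_mul, norm_mul, Real.norm_eq_abs, Real.norm_eq_abs, Real.norm_eq_abs,
              abs_of_pos (a := 2 / ρ ^ 2) (by positivity)]
            gcongr
            exact abs_dbF_le (by positivity)
          · rw [innerSL_apply_norm]; exact h.le
      _ = ((1 + 2 * Mb) * (ρ ^ 3)⁻¹) / ρ := by field_simp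

end Pool.Agent.Lib.P1c98a8
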