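import Pool.Agent.Lib.P1c98a8.Pointwise

/-!
The `L²` distance between the velocity and its mollification.
-/

open MeasureTheory Set Filter Topology
open scoped ContDiff ENNReal

namespace Pool.Agent.Lib.P1c98a8

lemma sq_lintegral_le {α : Type*} [MeasurableSpace α] (μ : Measure α) {f : α → ℝ≥0∞}
    (hf : AEMeasurable f μ) : (∫⁻ a, f a ∂μ) ^ 2 ≤ μ univ * ∫⁻ a, f a ^ 2 ∂μ := by
  have h1 := ENNReal.lintegral_mul_le_Lp_mul_Lq μ Real.HolderConjugate.two_two
    (f := fun _ => (1 : ℝ≥0∞)) (g := f) aemeasurable_const hf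
  have h2 : (∫⁻ a, f a ∂μ) ≤ (μ univ) ^ (1 / 2 : ℝ) * (∫⁻ a, f a ^ (2 : ℝ) ∂μ) ^ (1 / 2 : ℝ) := by
    simpa using h1
  calc (∫⁻ a, f a ∂μ) ^ 2
      ≤ ((μ univ) ^ (1 / 2 : ℝ) * (∫⁻ a, f a ^ (2 : ℝ) ∂μ) ^ (1 / 2 : ℝ)) ^ 2 := by gcongr
    _ = μ univ * ∫⁻ a, f a ^ 2 ∂μ := by
        rw [mul_pow, ← ENNReal.rpow_natCast, ← ENNReal.rpow_mul, ← ENNReal.rpow_natCast,
          ← ENNReal.rpow_mul]
        norm_num

lemma vol_closedBall (x : E3) {ρ : ℝ} (hρ : 0 ≤ ρ) :
    volume (Metric.closedBall x ρ) = ENNReal.ofReal (ρ ^ 3 * Vb) := by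
  rw [Measure.addHaar_closedBall _ _ hρ, ENNReal.ofReal_mul (by positivity), ofReal_Vb]
  simp

lemma measurableSet_S : MeasurableSet {p : (E3 × ℝ) × E3 | p.2 ∈ Metric.closedBall p.1.1 p.1.2} := by
  have : {p : (E3 × ℝ) × E3 | p.2 ∈ Metric.closedBall p.1.1 p.1.2}
      = {p : (E3 × ℝ) × E3 | dist p.2 p.1.1 ≤ p.1.2} := by
    ext p; simp
  rw [this]
  apply measurableSet_le <;> fun_prop

lemma measurable_ballmass {g : E3 → ℝ≥0∞} (hg : Measurable g) :
    Measurable (fun p : E3 × ℝ => ∫⁻ y, (Metric.closedBall p.1 p.2).indicator g y) := by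
  have h1 : Measurable (fun q : (E3 × ℝ) × E3 =>
      {p : (E3 × ℝ) × E3 | p.2 ∈ Metric.closedBall p.1.1 p.1.2}.indicator (fun q => g q.2) q) :=
    (hg.comp measurable_snd).indicator measurableSet_S
  have h2 := h1.lintegral_prod_right' (ν := volume)
  exact h2

lemma young_type {g : E3 → ℝ≥0∞} (hg : Measurable g) {R : ℝ} (hR : 0 < R) :
    ∫⁻ x : E3, (∫⁻ ρ in Ioc 0 R, ENNReal.ofReal ((ρ ^ 3)⁻¹) *
      ∫⁻ y, (Metric.closedBall x ρ).indicator g y) ^ 2
      ≤ ENNReal.ofReal (R ^ 2 * Vb ^ 2) * ∫⁻ y, g y ^ 2 := by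
  have hV := Vb_nonneg
  have hm := measurable_ballmass hg
  have hm2 := measurable_ballmass (hg.pow_const 2)
  have hr : Measurable (fun ρ : ℝ => ENNReal.ofReal ((ρ ^ 3)⁻¹)) := by fun_prop
  have hstep1 : ∀ x : E3, (∫⁻ ρ in Ioc 0 R, ENNReal.ofReal ((ρ ^ 3)⁻¹) *
      ∫⁻ y, (Metric.closedBall x ρ).indicator g y) ^ 2
      ≤ ENNReal.ofReal R * ∫⁻ ρ in Ioc 0 R, ENNReal.ofReal ((ρ ^ 3)⁻¹ * Vb) *
        ∫⁻ y, (Metric.closedBall x ρ).indicator (fun y => g y ^ 2) y := by
    intro x
    refine (sq_lintegral_le _ ?_).trans ?_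
    · exact (hr.mul (hm.comp (measurable_const.prodMk measurable_id))).aemeasurable
    rw [Measure.restrict_apply MeasurableSet.univ, univ_inter, Real.volume_Ioc, sub_zero]
    refine mul_le_mul_right ?_ _
    apply setLIntegral_mono' measurableSet_Ioc
    intro ρ hρ
    have hρ0 : 0 < ρ := hρ.1
    rw [mul_pow]
    have h3 : (∫⁻ y, (Metric.closedBall x ρ).indicator g y) ^ 2
        ≤ ENNReal.ofReal (ρ ^ 3 * Vb) *
          ∫⁻ y, (Metric.closedBall x ρ).indicator (fun y => g y ^ 2) y := by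
      rw [lintegral_indicator measurableSet_closedBall, lintegral_indicator measurableSet_closedBall]
      refine (sq_lintegral_le _ hg.aemeasurable).trans ?_
      rw [Measure.restrict_apply MeasurableSet.univ, univ_inter, vol_closedBall x hρ0.le]
    refine (mul_le_mul_right h3 _).trans ?_
    rw [← mul_assoc, ← ENNReal.ofReal_pow (by positivity), ← ENNReal.ofReal_mul (by positivity)]
    refine mul_le_mul_left (ENNReal.ofReal_le_ofReal (le_of_eq ?_)) _
    field_simp
  calc ∫⁻ x : E3, (∫⁻ ρ in Ioc 0 R, ENNReal.ofReal ((ρ ^ 3)⁻¹) *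
      ∫⁻ y, (Metric.closedBall x ρ).indicator g y) ^ 2
      ≤ ∫⁻ x : E3, ENNReal.ofReal R * ∫⁻ ρ in Ioc 0 R, ENNReal.ofReal ((ρ ^ 3)⁻¹ * Vb) *
        ∫⁻ y, (Metric.closedBall x ρ).indicator (fun y => g y ^ 2) y :=
        lintegral_mono hstep1
    _ = ENNReal.ofReal R * ∫⁻ x : E3, ∫⁻ ρ in Ioc 0 R, ENNReal.ofReal ((ρ ^ 3)⁻¹ * Vb) *
        ∫⁻ y, (Metric.closedBall x ρ).indicator (fun y => g y ^ 2) y :=
        lintegral_const_mul' _ _ ENNReal.ofReal_ne_top
    _ = ENNReal.ofReal R * ∫⁻ ρ in Ioc 0 R, ∫⁻ x : E3, ENNReal.ofReal ((ρ ^ 3)⁻¹ * Vb) *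
        ∫⁻ y, (Metric.closedBall x ρ).indicator (fun y => g y ^ 2) y := by
        rw [lintegral_lintegral_swap]
        apply Measurable.aemeasurable
        exact Measurable.mul (by fun_prop) hm2
    _ = ENNReal.ofReal R * ∫⁻ _ρ in Ioc 0 R, ENNReal.ofReal (Vb ^ 2) * ∫⁻ y, g y ^ 2 := by
        congr 1
        apply setLIntegral_congr_fun measurableSet_Ioc
        intro ρ hρ
        have hρ0 : 0 < ρ := hρ.1
        simp only
        rw [lintegral_const_mul' _ _ ENNReal.ofReal_ne_top]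
        have h4 : ∫⁻ x : E3, ∫⁻ y, (Metric.closedBall x ρ).indicator (fun y => g y ^ 2) y
            = ENNReal.ofReal (ρ ^ 3 * Vb) * ∫⁻ y, g y ^ 2 := by
          rw [lintegral_lintegral_swap]
          · rw [← lintegral_const_mul' _ _ ENNReal.ofReal_ne_top]
            apply lintegral_congr fun y => ?_
            have h5 : ∀ x : E3, (Metric.closedBall x ρ).indicator (fun y => g y ^ 2) y
                = (Metric.closedBall y ρ).indicator (fun _ => g y ^ 2) x := by
              intro x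
              by_cases h : y ∈ Metric.closedBall x ρ
              · rw [indicator_of_mem h, indicator_of_mem (Metric.mem_closedBall_comm.1 h)]
              · rw [indicator_of_notMem h,
                  indicator_of_notMem (fun h' => h (Metric.mem_closedBall_comm.1 h'))]
            simp_rw [h5]
            rw [lintegral_indicator_const measurableSet_closedBall, vol_closedBall y hρ0.le,
              mul_comm]
          · have h6 : Measurable (fun q : E3 × E3 =>
                {p : E3 × E3 | p.2 ∈ Metric.closedBall p.1 ρ}.indicator (fun q => g q.2 ^ 2) q) := by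
              apply ((hg.comp measurable_snd).pow_const 2).indicator
              have : {p : E3 × E3 | p.2 ∈ Metric.closedBall p.1 ρ} = {p | dist p.2 p.1 ≤ ρ} := by
                ext p; simp
              rw [this]
              apply measurableSet_le <;> fun_prop
            exact h6.aemeasurable
        rw [h4, ← mul_assoc, ← ENNReal.ofReal_mul (by positivity)]
        congr 2
        field_simp
    _ = ENNReal.ofReal (R ^ 2 * Vb ^ 2) * ∫⁻ y, g y ^ 2 := by
        rw [lintegral_const, Measure.restrict_apply MeasurableSet.univ, univ_inter,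
          Real.volume_Ioc, sub_zero, mul_comm (ENNReal.ofReal (Vb ^ 2) * _) _, ← mul_assoc,
          ← mul_assoc, ← ENNReal.ofReal_mul (by positivity), ← ENNReal.ofReal_mul (by positivity)]
        congr 2
        ring

end Pool.Agent.Lib.P1c98a8
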