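import Pool.Agent.Lib.P1c98a8.Limit

/-!
A level set argument: a function which at every scale `R ≤ 1` is the sum of a function bounded by
`C₁ R^{-δ}` and a function of `L²` norm at most `√C₂ R` belongs to `L^q` for `2 < q < 2 + 2/δ`.
-/

open MeasureTheory Set Filter Topology
open scoped ENNReal

namespace Pool.Agent.Lib.P1c98a8

/-- the constant of the level set lemma -/
noncomputable def Kls (C₁ C₂ δ q : ℝ) : ℝ≥0∞ :=
  ENNReal.ofReal ((2 * C₁) ^ (q - 2)) +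
    ∑' n : ℕ, ENNReal.ofReal ((2 * C₁ * (2 : ℝ) ^ (δ * (n + 1))) ^ (q - 2) * 4 * (C₂ * (((1 : ℝ) / 2) ^ n) ^ 2))

lemma Kls_lt_top {C₁ C₂ δ q : ℝ} (hC₁ : 0 < C₁) (hδ : 0 < δ) (hq' : q < 2 + 2 / δ) : Kls C₁ C₂ δ q < ⊤ := by
  unfold Kls
  refine ENNReal.add_lt_top.2 ⟨ENNReal.ofReal_lt_top, ?_⟩
  have h1 : ∀ n : ℕ, (2 * C₁ * (2 : ℝ) ^ (δ * (n + 1))) ^ (q - 2) * 4 * (C₂ * (((1 : ℝ) / 2) ^ n) ^ 2)
      = ((2 * C₁) ^ (q - 2) * (2 : ℝ) ^ (δ * (q - 2)) * 4 * C₂) * ((2 : ℝ) ^ (δ * (q - 2) - 2)) ^ n := by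
    intro n
    rw [Real.mul_rpow (by positivity) (by positivity), ← Real.rpow_mul (by norm_num),
      ← Real.rpow_natCast ((2 : ℝ) ^ (δ * (q - 2) - 2)) n, ← Real.rpow_mul (by norm_num)]
    have h2 : (2 : ℝ) ^ (δ * (n + 1) * (q - 2)) = (2 : ℝ) ^ (δ * (q - 2)) * (2 : ℝ) ^ (δ * (q - 2) * n) := by
      rw [← Real.rpow_add (by norm_num)]; congr 1; ring
    have h3 : (((1 : ℝ) / 2) ^ n) ^ 2 = (2 : ℝ) ^ (-(2 : ℝ) * n) := by
      rw [← pow_mul, one_div, inv_pow, ← Real.rpow_natCast, ← Real.rpow_neg (by norm_num)]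
      congr 1; push_cast; ring
    have h4 : (2 : ℝ) ^ ((δ * (q - 2) - 2) * n) = (2 : ℝ) ^ (δ * (q - 2) * n) * (2 : ℝ) ^ (-(2 : ℝ) * n) := by
      rw [← Real.rpow_add (by norm_num)]; congr 1; ring
    rw [h2, h3, h4]; ring
  have hexp : δ * (q - 2) - 2 < 0 := by
    have : q - 2 < 2 / δ := by linarith
    rw [lt_div_iff₀ hδ] at this
    linarith
  have hr1 : (2 : ℝ) ^ (δ * (q - 2) - 2) < 1 := Real.rpow_lt_one_of_one_lt_of_neg (by norm_num) hexp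
  have hr0 : (0 : ℝ) ≤ (2 : ℝ) ^ (δ * (q - 2) - 2) := by positivity
  have hsum : Summable (fun n : ℕ => (2 * C₁ * (2 : ℝ) ^ (δ * (n + 1))) ^ (q - 2) * 4
      * (C₂ * (((1 : ℝ) / 2) ^ n) ^ 2)) := by
    simp_rw [h1]
    exact (summable_geometric_of_lt_one hr0 hr1).mul_left _
  exact hsum.tsum_ofReal_lt_top

lemma level_set {f : E3 → ℝ} (hf : AEMeasurable f volume) {C₁ C₂ δ q : ℝ} (hC₁ : 0 < C₁)
    (hC₂ : 0 ≤ C₂) (hδ : 0 < δ) (hq : 2 < q) (hL2 : ∫⁻ x, ‖f x‖ₑ ^ 2 ≤ 1)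
    (hdec : ∀ R : ℝ, 0 < R → R ≤ 1 → ∃ V : E3 → ℝ, AEMeasurable V volume ∧
      (∀ x, |V x| ≤ C₁ * R ^ (-δ)) ∧ ∫⁻ x, ‖V x - f x‖ₑ ^ 2 ≤ ENNReal.ofReal (C₂ * R ^ 2)) :
    ∫⁻ x, ‖f x‖ₑ ^ q ≤ Kls C₁ C₂ δ q := by
  have hRn : ∀ n : ℕ, 0 < ((1 : ℝ) / 2) ^ n := fun n => by positivity
  have hRn1 : ∀ n : ℕ, ((1 : ℝ) / 2) ^ n ≤ 1 := fun n => pow_le_one₀ (by norm_num) (by norm_num)
  choose V hVm hVb hVd using fun n : ℕ => hdec (((1 : ℝ) / 2) ^ n) (hRn n) (hRn1 n)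
  have hRpow : ∀ n : ℕ, (((1 : ℝ) / 2) ^ n) ^ (-δ) = (2 : ℝ) ^ (δ * n) := by
    intro n
    rw [one_div, inv_pow, ← Real.rpow_natCast, Real.inv_rpow (by positivity),
      ← Real.rpow_neg (by positivity), ← Real.rpow_mul (by norm_num)]
    congr 1; ring
  have hq2 : 0 < q - 2 := by linarith
  -- pointwise splitting
  have hkey : ∀ a A W : ℝ, 0 < A → |a| ≤ A → |a| ^ 2 ≤ W → |a| ^ q ≤ A ^ (q - 2) * W := by
    intro a A W hA h1 h2
    by_cases ha : a = 0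
    · subst ha
      rw [abs_zero, Real.zero_rpow (by linarith)]
      have : 0 ≤ W := le_trans (by positivity) h2
      positivity
    · have ha' : 0 < |a| := abs_pos.2 ha
      have h3 : |a| ^ q = |a| ^ (q - 2) * |a| ^ 2 := by
        rw [← Real.rpow_natCast |a| 2, ← Real.rpow_add ha']
        congr 1; push_cast; ring
      rw [h3]
      gcongr
  have hpt : ∀ x, ‖f x‖ₑ ^ q ≤ ENNReal.ofReal ((2 * C₁) ^ (q - 2)) * ‖f x‖ₑ ^ 2 +
      ∑' n : ℕ, ENNReal.ofReal ((2 * C₁ * (2 : ℝ) ^ (δ * (n + 1))) ^ (q - 2) * 4)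
        * ‖V n x - f x‖ₑ ^ 2 := by
    intro x
    have hconv : ∀ a : ℝ, ‖a‖ₑ ^ (2 : ℕ) = ENNReal.ofReal (|a| ^ 2) := by
      intro a
      rw [Real.enorm_eq_ofReal_abs, ENNReal.ofReal_pow (abs_nonneg _)]
    have hconvq : ‖f x‖ₑ ^ q = ENNReal.ofReal (|f x| ^ q) := by
      rw [Real.enorm_eq_ofReal_abs, ENNReal.ofReal_rpow_of_nonneg (abs_nonneg _) (by linarith)]
    by_cases h0 : |f x| ≤ 2 * C₁
    · refine le_trans ?_ (le_add_of_nonneg_right zero_le)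
      rw [hconvq, hconv, ← ENNReal.ofReal_mul (by positivity)]
      exact ENNReal.ofReal_le_ofReal (hkey _ _ _ (by positivity) h0 le_rfl)
    · push Not at h0
      -- find the level
      have hex : ∃ n : ℕ, |f x| ≤ 2 * C₁ * (2 : ℝ) ^ (δ * (n + 1)) := by
        have h2δ : 1 < (2 : ℝ) ^ δ := Real.one_lt_rpow (by norm_num) hδ
        obtain ⟨n, hn⟩ := pow_unbounded_of_one_lt (|f x| / (2 * C₁)) h2δ
        refine ⟨n, ?_⟩
        rw [div_lt_iff₀ (by positivity)] at hn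
        have h3 : ((2 : ℝ) ^ δ) ^ n ≤ (2 : ℝ) ^ (δ * (n + 1)) := by
          rw [← Real.rpow_natCast, ← Real.rpow_mul (by norm_num)]
          apply Real.rpow_le_rpow_of_exponent_le (by norm_num)
          nlinarith
        nlinarith
      classical
      set n := Nat.find hex with hn
      have hn1 : |f x| ≤ 2 * C₁ * (2 : ℝ) ^ (δ * (n + 1)) := Nat.find_spec hex
      have hn2 : 2 * C₁ * (2 : ℝ) ^ (δ * n) < |f x| := by
        rcases Nat.eq_zero_or_pos n with h | h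
        · rw [h]; simpa using h0
        · have h4 := Nat.find_min hex (m := n - 1) (by omega)
          push Not at h4
          have h5 : ((n - 1 : ℕ) : ℝ) + 1 = n := by
            rw [Nat.cast_sub h]; push_cast; ring
          rw [h5] at h4
          exact h4
      have hV : |V n x| ≤ C₁ * (2 : ℝ) ^ (δ * n) := by
        rw [← hRpow]; exact hVb n x
      have hdiff : |f x| ≤ 2 * |V n x - f x| := by
        have h6 : |f x| - |V n x| ≤ |V n x - f x| := by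
          rw [abs_sub_comm]; exact abs_sub_abs_le_abs_sub _ _
        linarith
      refine le_trans ?_ (le_add_of_nonneg_left zero_le)
      refine le_trans ?_ (ENNReal.le_tsum n)
      rw [hconvq, hconv, ← ENNReal.ofReal_mul (by positivity)]
      apply ENNReal.ofReal_le_ofReal
      rw [mul_assoc]
      apply hkey _ _ _ (by positivity) hn1
      calc |f x| ^ 2 ≤ (2 * |V n x - f x|) ^ 2 := by gcongr
        _ = 4 * |V n x - f x| ^ 2 := by ring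
  calc ∫⁻ x, ‖f x‖ₑ ^ q
      ≤ ∫⁻ x, (ENNReal.ofReal ((2 * C₁) ^ (q - 2)) * ‖f x‖ₑ ^ 2 +
      ∑' n : ℕ, ENNReal.ofReal ((2 * C₁ * (2 : ℝ) ^ (δ * (n + 1))) ^ (q - 2) * 4)
        * ‖V n x - f x‖ₑ ^ 2) := lintegral_mono hpt
    _ = ENNReal.ofReal ((2 * C₁) ^ (q - 2)) * (∫⁻ x, ‖f x‖ₑ ^ 2) +
      ∑' n : ℕ, ENNReal.ofReal ((2 * C₁ * (2 : ℝ) ^ (δ * (n + 1))) ^ (q - 2) * 4)
        * ∫⁻ x, ‖V n x - f x‖ₑ ^ 2 := by
        rw [lintegral_add_left' ((hf.enorm.pow_const _).const_mul _),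
          lintegral_const_mul' _ _ ENNReal.ofReal_ne_top, lintegral_tsum]
        · refine congrArg₂ _ rfl (tsum_congr fun n => ?_)
          rw [lintegral_const_mul' _ _ ENNReal.ofReal_ne_top]
        · intro n
          exact ((((hVm n).sub hf).enorm).pow_const _).const_mul _
    _ ≤ ENNReal.ofReal ((2 * C₁) ^ (q - 2)) * 1 +
      ∑' n : ℕ, ENNReal.ofReal ((2 * C₁ * (2 : ℝ) ^ (δ * (n + 1))) ^ (q - 2) * 4)
        * ENNReal.ofReal (C₂ * (((1 : ℝ) / 2) ^ n) ^ 2) :=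
        add_le_add (mul_le_mul_right hL2 _)
          (ENNReal.tsum_le_tsum fun n => mul_le_mul_right (hVd n) _)
    _ = Kls C₁ C₂ δ q := by
        unfold Kls
        rw [mul_one]
        refine congrArg₂ _ rfl (tsum_congr fun n => ?_)
        rw [← ENNReal.ofReal_mul (by positivity)]

end Pool.Agent.Lib.P1c98a8
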