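import Pool.Agent.Lib.P1c98a8.L2diff

/-!
`L²` distance between the velocity and its mollification, by letting the smaller scale go to zero.
-/

open MeasureTheory Set Filter Topology
open scoped ContDiff ENNReal

namespace Pool.Agent.Lib.P1c98a8

/-- total mass of the unit kernel -/
noncomputable def Zc : ℝ := ∫ z : E3, ker 1 z

lemma Zc_pos : 0 < Zc := by
  apply Continuous.integral_pos_of_hasCompactSupport_nonneg_nonzero (x := (0 : E3))
    (ker_continuous 1)
  · apply HasCompactSupport.intro (isCompact_closedBall (0 : E3) 1)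
    intro y hy
    apply ker_zero one_pos
    rw [mem_closedBall_zero_iff, not_le] at hy
    exact hy.le
  · exact fun z => ker_nonneg one_pos z
  · have : 0 < bF 0 := bF_pos one_pos
    simp [ker, this.ne']

lemma integral_ker {ρ : ℝ} (hρ : 0 < ρ) (x : E3) : ∫ y, ker ρ (x - y) = Zc := by
  rw [integral_sub_left_eq_self (fun y => ker ρ y) volume x]
  have h1 : ∀ z : E3, ker ρ z = (ρ ^ 3)⁻¹ * ker 1 (ρ⁻¹ • z) := by
    intro z
    simp only [ker, norm_smul, norm_inv, Real.norm_eq_abs, abs_of_pos hρ]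
    congr 1
    rw [one_pow, inv_one, one_mul]
    congr 1
    field_simp
  simp_rw [h1]
  rw [integral_const_mul, Measure.integral_comp_smul]
  simp only [finrank_euclideanSpace, Fintype.card_fin, smul_eq_mul]
  rw [abs_of_pos (by positivity)]
  unfold Zc
  field_simp

lemma Fm_ae_tendsto {f : E3 → ℝ} (hf : MemLp f 2 volume) :
    ∀ᵐ x, Tendsto (fun n : ℕ => Fm f x (1 / (n + 1))) atTop (𝓝 (Zc * f x)) := by
  have hloc : LocallyIntegrable f volume := hf.locallyIntegrable (by norm_num)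
  have hZ := Zc_pos
  have hV : 0 ≤ Vb := Vb_nonneg
  have hlim : Tendsto (fun n : ℕ => (1 : ℝ) / (n + 1)) atTop (𝓝[>] 0) :=
    tendsto_nhdsWithin_iff.2 ⟨tendsto_one_div_add_atTop_nhds_zero_nat,
      Eventually.of_forall fun n => by simp only [mem_Ioi]; positivity⟩
  filter_upwards [(Besicovitch.vitaliFamily (volume : Measure E3)).ae_tendsto_average_norm_sub hloc]
    with x h₀
  have h1 := (h₀.comp (Besicovitch.tendsto_filterAt volume x)).comp hlim
  have h2 := tendsto_integral_smul_of_tendsto_average_norm_sub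
    (a := fun n : ℕ => Metric.closedBall x (1 / ((n : ℝ) + 1))) (l := atTop) (f := f) (c := f x)
    (g := fun (n : ℕ) y => Zc⁻¹ * ker (1 / ((n : ℝ) + 1)) (x - y)) (Zc⁻¹ * Vb) h1 ?_ ?_ ?_ ?_
  · have h3 := h2.const_mul Zc
    refine h3.congr fun n => ?_
    unfold Fm
    rw [← integral_const_mul]
    congr 1
    ext y
    rw [smul_eq_mul]
    field_simp
  · refine Eventually.of_forall fun n => ?_
    exact hloc.integrableOn_isCompact (isCompact_closedBall _ _)
  · apply tendsto_const_nhds.congr fun n => ?_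
    rw [integral_const_mul, integral_ker (by positivity), inv_mul_cancel₀ hZ.ne']
  · refine Eventually.of_forall fun n => ?_
    intro y hy
    by_contra hcon
    apply hy
    have : ker (1 / ((n : ℝ) + 1)) (x - y) = 0 := by
      apply ker_zero (by positivity)
      rw [mem_closedBall_iff_norm, not_le, norm_sub_rev] at hcon
      exact hcon.le
    simp only []
    rw [this, mul_zero]
  · refine Eventually.of_forall fun n y => ?_
    have hρ : (0 : ℝ) < 1 / ((n : ℝ) + 1) := by positivity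
    have hVpos : 0 < Vb := by
      unfold Vb
      exact ENNReal.toReal_pos (Metric.measure_ball_pos _ _ one_pos).ne' measure_ball_lt_top.ne
    have h4 : volume.real (Metric.closedBall x (1 / ((n : ℝ) + 1)))
        = (1 / ((n : ℝ) + 1)) ^ 3 * Vb := by
      rw [measureReal_def, vol_closedBall x hρ.le, ENNReal.toReal_ofReal (by positivity)]
    rw [h4, abs_of_nonneg (mul_nonneg (by positivity) (ker_nonneg hρ _))]
    calc Zc⁻¹ * ker (1 / ((n : ℝ) + 1)) (x - y)
        ≤ Zc⁻¹ * ((1 / ((n : ℝ) + 1)) ^ 3)⁻¹ := by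
          gcongr
          exact ker_le hρ _
      _ = Zc⁻¹ * Vb / ((1 / ((n : ℝ) + 1)) ^ 3 * Vb) := by
          field_simp

/-- sum of the sizes of the entries of the Jacobian -/
noncomputable def gsum (D : E3 → Fin 3 → Fin 3 → ℝ) (i : Fin 3) (y : E3) : ℝ≥0∞ :=
  ∑ j, ‖D y i j‖ₑ

lemma Fm_diff_bound {v : E3 → E3} {D : E3 → Fin 3 → Fin 3 → ℝ} (hv : IsH1Solenoidal v D)
    {ε R : ℝ} (hε : 0 < ε) (hεR : ε ≤ R) (x : E3) (i : Fin 3) :
    ‖Fm (fun y => v y i) x R - Fm (fun y => v y i) x ε‖ₑ ≤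
      ∫⁻ ρ in Ioc 0 R, ENNReal.ofReal ((ρ ^ 3)⁻¹) *
        ∫⁻ y, (Metric.closedBall x ρ).indicator (gsum D i) y := by
  set F : ℝ → ℝ := Fm (fun y => v y i) x with hF
  set F' : ℝ → ℝ := fun ρ => -(∑ j, ∫ y, D y i j * gker ρ j (x - y)) with hF'
  have hd : ∀ ρ, 0 < ρ → HasDerivAt F (F' ρ) ρ := fun ρ hρ => hasDerivAt_Fm_grad hv hρ x i
  have hb : ∀ ρ, 0 < ρ → ‖F' ρ‖ₑ ≤ ENNReal.ofReal ((ρ ^ 3)⁻¹) *
      ∫⁻ y, (Metric.closedBall x ρ).indicator (gsum D i) y := by
    intro ρ hρ
    have h1 : ∀ j, ‖∫ y, D y i j * gker ρ j (x - y)‖ₑ ≤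
        ∫⁻ y, ENNReal.ofReal ((ρ ^ 3)⁻¹) *
          (Metric.closedBall x ρ).indicator (fun y => ‖D y i j‖ₑ) y := by
      intro j
      refine (enorm_integral_le_lintegral_enorm _).trans ?_
      apply lintegral_mono fun y => ?_
      by_cases hy : y ∈ Metric.closedBall x ρ
      · rw [indicator_of_mem hy, enorm_mul, mul_comm]
        gcongr
        rw [Real.enorm_eq_ofReal_abs]
        exact ENNReal.ofReal_le_ofReal (abs_gker_le hρ j _)
      · have : gker ρ j (x - y) = 0 := by
          apply gker_zero hρ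
          rw [mem_closedBall_iff_norm, not_le] at hy
          rw [norm_sub_rev]; exact hy.le
        simp [this]
    calc ‖F' ρ‖ₑ = ‖∑ j, ∫ y, D y i j * gker ρ j (x - y)‖ₑ := by rw [hF']; simp only [enorm_neg]
      _ ≤ ∑ j, ‖∫ y, D y i j * gker ρ j (x - y)‖ₑ := enorm_sum_le _ _
      _ ≤ ∑ j, ∫⁻ y, ENNReal.ofReal ((ρ ^ 3)⁻¹) *
          (Metric.closedBall x ρ).indicator (fun y => ‖D y i j‖ₑ) y :=
          Finset.sum_le_sum fun j _ => h1 j
      _ = ∫⁻ y, ∑ j, ENNReal.ofReal ((ρ ^ 3)⁻¹) *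
          (Metric.closedBall x ρ).indicator (fun y => ‖D y i j‖ₑ) y := by
          rw [lintegral_finsetSum']
          intro j _
          exact (((hv.memLp_grad i j).1.enorm).indicator measurableSet_closedBall).const_mul _
      _ = _ := by
          rw [← lintegral_const_mul' _ _ ENNReal.ofReal_ne_top]
          apply lintegral_congr fun y => ?_
          rw [← Finset.mul_sum]
          congr 1
          by_cases hy : y ∈ Metric.closedBall x ρ
          · simp [indicator_of_mem hy, gsum]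
          · simp [indicator_of_notMem hy]
  -- finiteness of the mass
  have hmfin : ∫⁻ y, (Metric.closedBall x R).indicator (gsum D i) y ≠ ⊤ := by
    rw [lintegral_indicator measurableSet_closedBall]
    unfold gsum
    rw [lintegral_finsetSum']
    · apply (ENNReal.sum_lt_top.2 ?_).ne
      intro j _
      have : IntegrableOn (fun y => D y i j) (Metric.closedBall x R) volume :=
        ((hv.memLp_grad i j).locallyIntegrable (by norm_num)).integrableOn_isCompact
          (isCompact_closedBall _ _)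
      exact this.2
    · intro j _
      exact (hv.memLp_grad i j).1.enorm.restrict
  have hint : IntervalIntegrable F' volume ε R := by
    rw [intervalIntegrable_iff_integrableOn_Ioc_of_le hεR]
    set M : ℝ≥0∞ := ENNReal.ofReal ((ε ^ 3)⁻¹) *
        ∫⁻ y, (Metric.closedBall x R).indicator (gsum D i) y with hM
    have hMfin : M ≠ ⊤ := ENNReal.mul_ne_top ENNReal.ofReal_ne_top hmfin
    refine IntegrableOn.of_bound (by simp) ?_ M.toReal ?_
    · have h1 : AEStronglyMeasurable (deriv F) (volume.restrict (Ioc ε R)) :=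
        aestronglyMeasurable_deriv F _
      refine h1.congr ?_
      filter_upwards [ae_restrict_mem measurableSet_Ioc] with ρ hρ
      exact (hd ρ (hε.trans hρ.1)).deriv
    · filter_upwards [ae_restrict_mem measurableSet_Ioc] with ρ hρ
      have hρ0 : 0 < ρ := hε.trans hρ.1
      have h2 : ‖F' ρ‖ₑ ≤ M := by
        refine (hb ρ hρ0).trans ?_
        rw [hM]
        gcongr
        · exact hρ.1.le
        · exact hρ.2
      rw [← toReal_enorm]
      exact ENNReal.toReal_mono hMfin h2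
  have hFTC : ∫ ρ in ε..R, F' ρ = F R - F ε := by
    apply intervalIntegral.integral_eq_sub_of_hasDerivAt _ hint
    intro ρ hρ
    rw [uIcc_of_le hεR] at hρ
    exact hd ρ (hε.trans_le hρ.1)
  rw [← hFTC, intervalIntegral.integral_of_le hεR]
  refine (enorm_integral_le_lintegral_enorm _).trans ?_
  calc ∫⁻ ρ in Ioc ε R, ‖F' ρ‖ₑ
      ≤ ∫⁻ ρ in Ioc 0 R, ‖F' ρ‖ₑ := by
        apply lintegral_mono_set
        exact Ioc_subset_Ioc_left hε.le
    _ ≤ _ := by
        apply setLIntegral_mono_ae' measurableSet_Ioc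
        exact Eventually.of_forall fun ρ hρ => hb ρ hρ.1

lemma gsum_aemeasurable {D : E3 → Fin 3 → Fin 3 → ℝ} (hD : ∀ i j, MemLp (fun x => D x i j) 2 volume)
    (i : Fin 3) : AEMeasurable (gsum D i) volume := by
  unfold gsum
  exact Finset.aemeasurable_fun_sum _ fun j _ => (hD i j).1.enorm

/-- `‖u - u*φ_R‖_{L²} ≤ C R ‖∇u‖_{L²}` -/
lemma L2_dist {v : E3 → E3} {D : E3 → Fin 3 → Fin 3 → ℝ} (hv : IsH1Solenoidal v D)
    {R : ℝ} (hR : 0 < R) (i : Fin 3) :
    ∫⁻ x, ‖Fm (fun y => v y i) x R - Zc * v x i‖ₑ ^ 2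
      ≤ ENNReal.ofReal (R ^ 2 * Vb ^ 2) * ∫⁻ y, gsum D i y ^ 2 := by
  have hgm := gsum_aemeasurable hv.memLp_grad i
  set g := hgm.mk with hg
  have hgmeas : Measurable g := hgm.measurable_mk
  have hgeq : gsum D i =ᵐ[volume] g := hgm.ae_eq_mk
  have hball : ∀ (x : E3) (ρ : ℝ), ∫⁻ y, (Metric.closedBall x ρ).indicator (gsum D i) y
      = ∫⁻ y, (Metric.closedBall x ρ).indicator g y := by
    intro x ρ
    apply lintegral_congr_ae
    filter_upwards [hgeq] with y hy
    by_cases h : y ∈ Metric.closedBall x ρ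
    · simp [indicator_of_mem h, hy]
    · simp [indicator_of_notMem h]
  have hsq : ∫⁻ y, gsum D i y ^ 2 = ∫⁻ y, g y ^ 2 := by
    apply lintegral_congr_ae
    filter_upwards [hgeq] with y hy
    rw [hy]
  have hvi : MemLp (fun y => v y i) 2 volume := memLp_comp hv.memLp i
  have htend := Fm_ae_tendsto hvi
  -- pointwise bound, for every n large
  have hpt : ∀ᵐ x, ‖Fm (fun y => v y i) x R - Zc * v x i‖ₑ ^ 2 ≤
      (∫⁻ ρ in Ioc 0 R, ENNReal.ofReal ((ρ ^ 3)⁻¹) *
        ∫⁻ y, (Metric.closedBall x ρ).indicator g y) ^ 2 := by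
    filter_upwards [htend] with x hx
    gcongr
    have h1 : Tendsto (fun n : ℕ => ‖Fm (fun y => v y i) x R
        - Fm (fun y => v y i) x (1 / ((n : ℝ) + 1))‖ₑ) atTop
        (𝓝 ‖Fm (fun y => v y i) x R - Zc * v x i‖ₑ) :=
      (continuous_enorm.tendsto _).comp (tendsto_const_nhds.sub hx)
    apply le_of_tendsto h1
    have h2 : ∀ᶠ n : ℕ in atTop, 1 / ((n : ℝ) + 1) ≤ R := by
      have := tendsto_one_div_add_atTop_nhds_zero_nat (𝕜 := ℝ)
      exact (this.eventually (gt_mem_nhds hR)).mono fun n hn => hn.le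
    filter_upwards [h2] with n hn
    have h3 := Fm_diff_bound hv (ε := 1 / ((n : ℝ) + 1)) (by positivity) hn x i
    simp_rw [hball] at h3
    exact h3
  calc ∫⁻ x, ‖Fm (fun y => v y i) x R - Zc * v x i‖ₑ ^ 2
      ≤ ∫⁻ x : E3, (∫⁻ ρ in Ioc 0 R, ENNReal.ofReal ((ρ ^ 3)⁻¹) *
        ∫⁻ y, (Metric.closedBall x ρ).indicator g y) ^ 2 := lintegral_mono_ae hpt
    _ ≤ ENNReal.ofReal (R ^ 2 * Vb ^ 2) * ∫⁻ y, g y ^ 2 := young_type hgmeas hR
    _ = _ := by rw [hsq]

end Pool.Agent.Lib.P1c98a8
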