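import Pool.Agent.Lib.P1c98a8.Kernel

/-!
Mollification of the velocity, its derivative in the scale, and the pointwise bound.
-/

open MeasureTheory Set Filter Topology
open scoped ContDiff ENNReal

namespace Pool.Agent.Lib.P1c98a8

/-- mollified scalar function -/
noncomputable def Fm (f : E3 → ℝ) (x : E3) (ρ : ℝ) : ℝ := ∫ y, f y * ker ρ (x - y)

lemma sum_dgker_continuous (ρ : ℝ) (x : E3) :
    Continuous (fun y : E3 => -(∑ j, dgker ρ j j (x - y))) := by
  simp_rw [sum_dgker]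
  have h1 := bF_contDiff.continuous
  have h2 := dbF_continuous
  fun_prop

lemma abs_sum_dgker_le {ρ : ℝ} (hρ : 0 < ρ) (z : E3) :
    |∑ j, dgker ρ j j z| ≤ (ρ ^ 4)⁻¹ * (3 + 2 * Mb) := by
  have hMb := Mb_nonneg
  by_cases h : ρ ≤ ‖z‖
  · have : ∑ j, dgker ρ j j z = 0 := Finset.sum_eq_zero fun j _ => dgker_zero hρ h j j
    rw [this, abs_zero]; positivity
  · push Not at h
    rw [sum_dgker, abs_mul, abs_of_pos (a := (ρ ^ 4)⁻¹) (by positivity)]
    gcongr
    refine (abs_add_le _ _).trans ?_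
    have h1 : |3 * bF (‖z‖ ^ 2 / ρ ^ 2)| ≤ 3 := by
      rw [abs_of_nonneg (mul_nonneg (by norm_num) (bF_nonneg _))]
      linarith [bF_le_one (‖z‖ ^ 2 / ρ ^ 2)]
    have h2 : |‖z‖ ^ 2 * deriv bF (‖z‖ ^ 2 / ρ ^ 2) * (2 / ρ ^ 2)| ≤ 2 * Mb := by
      rw [abs_mul, abs_mul, abs_of_nonneg (a := ‖z‖ ^ 2) (by positivity),
        abs_of_pos (a := 2 / ρ ^ 2) (by positivity)]
      calc ‖z‖ ^ 2 * |deriv bF (‖z‖ ^ 2 / ρ ^ 2)| * (2 / ρ ^ 2)
          ≤ ρ ^ 2 * Mb * (2 / ρ ^ 2) := by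
            gcongr
            exact abs_dbF_le (by positivity)
        _ = 2 * Mb := by field_simp
    linarith

lemma ker_hasCompactSupport {ρ : ℝ} (hρ : 0 < ρ) (x : E3) :
    HasCompactSupport (fun y : E3 => ker ρ (x - y)) := by
  apply HasCompactSupport.intro (isCompact_closedBall x ρ)
  intro y hy
  apply ker_zero hρ
  rw [mem_closedBall_iff_norm, not_le] at hy
  rw [norm_sub_rev]; exact hy.le

lemma hasDerivAt_Fm {f : E3 → ℝ} (hf : MemLp f 2 volume) (x : E3) {ρ : ℝ} (hρ : 0 < ρ) :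
    HasDerivAt (Fm f x) (∫ y, f y * (-(∑ j, dgker ρ j j (x - y)))) ρ := by
  have hMb := Mb_nonneg
  have key := hasDerivAt_integral_of_dominated_loc_of_deriv_le (μ := (volume : Measure E3))
    (F := fun (σ : ℝ) y => f y * ker σ (x - y))
    (F' := fun (σ : ℝ) y => f y * (-(∑ j, dgker σ j j (x - y)))) (x₀ := ρ)
    (s := Metric.ball ρ (ρ / 2))
    (bound := fun y => ‖f y‖ * ((Metric.closedBall x (2 * ρ)).indicator
      (fun _ => ((ρ / 2) ^ 4)⁻¹ * (3 + 2 * Mb)) y))
    (Metric.ball_mem_nhds ρ (by positivity)) ?_ ?_ ?_ ?_ ?_ ?_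
  · exact key.2
  · refine Eventually.of_forall fun σ => ?_
    exact hf.1.mul (((ker_continuous σ).comp (by fun_prop)).aestronglyMeasurable)
  · exact integrable_mul_of_compact hf ((ker_continuous ρ).comp (by fun_prop))
      (ker_hasCompactSupport hρ x)
  · exact hf.1.mul (sum_dgker_continuous ρ x).aestronglyMeasurable
  · refine Eventually.of_forall fun y σ hσ => ?_
    have hσ' : |σ - ρ| < ρ / 2 := by simpa [Real.dist_eq] using hσ
    rw [abs_lt] at hσ'
    have hσ1 : ρ / 2 < σ := by linarith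
    have hσ2 : σ < 2 * ρ := by linarith
    have hσ0 : 0 < σ := by linarith
    rw [norm_mul]
    apply mul_le_mul_of_nonneg_left _ (norm_nonneg _)
    rw [norm_neg]
    by_cases hy : y ∈ Metric.closedBall x (2 * ρ)
    · rw [indicator_of_mem hy]
      refine (abs_sum_dgker_le hσ0 _).trans ?_
      gcongr
    · rw [indicator_of_notMem hy]
      rw [mem_closedBall_iff_norm, not_le, norm_sub_rev] at hy
      have : ∑ j, dgker σ j j (x - y) = 0 :=
        Finset.sum_eq_zero fun j _ => dgker_zero hσ0 (by linarith) j j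
      simp [this]
  · have hI : MemLp ((Metric.closedBall x (2 * ρ)).indicator
        (fun _ => ((ρ / 2) ^ 4)⁻¹ * (3 + 2 * Mb))) 2 (volume : Measure E3) := by
      apply memLp_indicator_const 2 measurableSet_closedBall
      right
      exact (isCompact_closedBall x (2 * ρ)).measure_lt_top.ne
    exact hf.norm.integrable_mul hI
  · refine Eventually.of_forall fun y σ hσ => ?_
    have hσ' : |σ - ρ| < ρ / 2 := by simpa [Real.dist_eq] using hσ
    rw [abs_lt] at hσ'
    exact (hasDerivAt_ker (x - y) (by linarith)).const_mul (f y)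

lemma gker_comp_contDiff (ρ : ℝ) (j : Fin 3) (x : E3) :
    ContDiff ℝ ∞ (fun y : E3 => gker ρ j (x - y)) :=
  (gker_contDiff ρ j).comp (by fun_prop)

lemma gker_hasCompactSupport {ρ : ℝ} (hρ : 0 < ρ) (j : Fin 3) (x : E3) :
    HasCompactSupport (fun y : E3 => gker ρ j (x - y)) := by
  apply HasCompactSupport.intro (isCompact_closedBall x ρ)
  intro y hy
  apply gker_zero hρ
  rw [mem_closedBall_iff_norm, not_le] at hy
  rw [norm_sub_rev]; exact hy.le

lemma dgker_hasCompactSupport {ρ : ℝ} (hρ : 0 < ρ) (i j : Fin 3) (x : E3) :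
    HasCompactSupport (fun y : E3 => dgker ρ i j (x - y)) := by
  apply HasCompactSupport.intro (isCompact_closedBall x ρ)
  intro y hy
  apply dgker_zero hρ
  rw [mem_closedBall_iff_norm, not_le] at hy
  rw [norm_sub_rev]; exact hy.le

lemma dgker_continuous (ρ : ℝ) (i j : Fin 3) (x : E3) :
    Continuous (fun y : E3 => dgker ρ i j (x - y)) := by
  unfold dgker
  have h1 := bF_contDiff.continuous
  have h2 := dbF_continuous
  split_ifs <;> fun_prop

lemma weak_step {v : E3 → E3} {D : E3 → Fin 3 → Fin 3 → ℝ} (hD : IsWeakGrad v D)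
    {ρ : ℝ} (hρ : 0 < ρ) (x : E3) (i j k : Fin 3) :
    ∫ y, v y i * dgker ρ j k (x - y) = ∫ y, D y i j * gker ρ k (x - y) := by
  have h := hD i j (fun y => gker ρ k (x - y)) (gker_comp_contDiff ρ k x)
    (gker_hasCompactSupport hρ k x)
  simp_rw [fderiv_gker_apply] at h
  have h2 : ∫ y, v y i * -dgker ρ j k (x - y) = - ∫ y, v y i * dgker ρ j k (x - y) := by
    rw [← integral_neg]; congr 1; ext y; ring
  rw [h2] at h
  exact neg_injective h

lemma memLp_comp {v : E3 → E3} (hv : MemLp v 2 volume) (i : Fin 3) :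
    MemLp (fun y => v y i) 2 volume :=
  hv.continuousLinearMap_comp (EuclideanSpace.proj i : E3 →L[ℝ] ℝ)

lemma hasDerivAt_Fm_grad {v : E3 → E3} {D : E3 → Fin 3 → Fin 3 → ℝ} (hv : IsH1Solenoidal v D)
    {ρ : ℝ} (hρ : 0 < ρ) (x : E3) (i : Fin 3) :
    HasDerivAt (Fm (fun y => v y i) x) (-(∑ j, ∫ y, D y i j * gker ρ j (x - y))) ρ := by
  refine HasDerivAt.congr_deriv (hasDerivAt_Fm (memLp_comp hv.memLp i) x hρ) ?_
  have h1 : ∀ y, v y i * (-(∑ j, dgker ρ j j (x - y)))
      = -(∑ j, v y i * dgker ρ j j (x - y)) := by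
    intro y; rw [mul_neg, Finset.mul_sum]
  simp_rw [h1]
  rw [integral_neg, integral_finsetSum]
  · congr 1
    exact Finset.sum_congr rfl fun j _ => weak_step hv.grad hρ x i j j
  · intro j _
    exact integrable_mul_of_compact (memLp_comp hv.memLp i) (dgker_continuous ρ j j x)
      (dgker_hasCompactSupport hρ j j x)

lemma integrable_D_gker {D : E3 → Fin 3 → Fin 3 → ℝ} (hD : ∀ i j, MemLp (fun x => D x i j) 2 volume)
    {ρ : ℝ} (hρ : 0 < ρ) (x : E3) (i j k : Fin 3) :
    Integrable (fun y => D y i j * gker ρ k (x - y)) :=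
  integrable_mul_of_compact (hD i j) (gker_comp_contDiff ρ k x).continuous
    (gker_hasCompactSupport hρ k x)

lemma cross_zero {v : E3 → E3} {D : E3 → Fin 3 → Fin 3 → ℝ} (hv : IsH1Solenoidal v D)
    {ρ : ℝ} (hρ : 0 < ρ) (x : E3) (i : Fin 3) :
    ∑ j, ∫ y, D y j i * gker ρ j (x - y) = 0 := by
  have h1 : ∀ j, ∫ y, D y j i * gker ρ j (x - y) = ∫ y, D y j j * gker ρ i (x - y) := by
    intro j
    rw [← weak_step hv.grad hρ x j i j, ← weak_step hv.grad hρ x j j i]
    congr 1; ext y; rw [dgker_symm]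
  simp_rw [h1]
  rw [← integral_finsetSum]
  · apply integral_eq_zero_of_ae
    filter_upwards [hv.div_free] with y hy
    rw [← Finset.sum_mul, hy, zero_mul]; rfl
  · intro j _
    exact integrable_D_gker hv.memLp_grad hρ x j j i

lemma skew_vort (i j : Fin 3) : ∃ v : E3, ‖v‖ ≤ 1 ∧ ∀ (D : E3 → Fin 3 → Fin 3 → ℝ) (y : E3),
    D y i j - D y j i = inner ℝ v (vort D y) := by
  have hn : ∀ k : Fin 3, ‖e3 k‖ = 1 := fun k => by simp [e3]
  have hi : ∀ (k : Fin 3) (z : E3), inner ℝ (e3 k) z = z k := by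
    intro k z
    rw [e3, EuclideanSpace.inner_single_left]; simp
  fin_cases i <;> fin_cases j
  · exact ⟨0, by simp, fun D y => by simp⟩
  · exact ⟨-e3 2, by simp [hn], fun D y => by rw [inner_neg_left, hi]; simp [vort]⟩
  · exact ⟨e3 1, by simp [hn], fun D y => by rw [hi]; simp [vort]⟩
  · exact ⟨e3 2, by simp [hn], fun D y => by rw [hi]; simp [vort]⟩
  · exact ⟨0, by simp, fun D y => by simp⟩
  · exact ⟨-e3 0, by simp [hn], fun D y => by rw [inner_neg_left, hi]; simp [vort]⟩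
  · exact ⟨-e3 1, by simp [hn], fun D y => by rw [inner_neg_left, hi]; simp [vort]⟩
  · exact ⟨e3 0, by simp [hn], fun D y => by rw [hi]; simp [vort]⟩
  · exact ⟨0, by simp, fun D y => by simp⟩

lemma memLp_vort {D : E3 → Fin 3 → Fin 3 → ℝ} (hD : ∀ i j, MemLp (fun x => D x i j) 2 volume) :
    MemLp (vort D) 2 volume := by
  have h1 : vort D = fun x => (D x 2 1 - D x 1 2) • e3 0 + (D x 0 2 - D x 2 0) • e3 1
      + (D x 1 0 - D x 0 1) • e3 2 := by
    ext x k
    fin_cases k <;> simp [vort, e3]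
  have h2 : ∀ (f : E3 → ℝ) (k : Fin 3), MemLp f 2 volume → MemLp (fun x => f x • e3 k) 2 volume := by
    intro f k hf
    exact hf.continuousLinearMap_comp (ContinuousLinearMap.toSpanSingleton ℝ (e3 k))
  rw [h1]
  exact ((h2 _ 0 ((hD 2 1).sub (hD 1 2))).add (h2 _ 1 ((hD 0 2).sub (hD 2 0)))).add
    (h2 _ 2 ((hD 1 0).sub (hD 0 1)))

/-- the vorticity is weakly divergence free -/
lemma div_vort {v : E3 → E3} {D : E3 → Fin 3 → Fin 3 → ℝ} (hv : IsH1Solenoidal v D)
    (φ : E3 → ℝ) (hφ : ContDiff ℝ ∞ φ) (hφs : HasCompactSupport φ) :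
    ∫ y, fderiv ℝ φ y (vort D y) = 0 := by
  -- first derivatives as test functions
  have hd : ∀ k, ContDiff ℝ ∞ (fun y => fderiv ℝ φ y (e3 k)) := fun k =>
    (hφ.fderiv_right (by norm_cast)).clm_apply contDiff_const
  have hds : ∀ k, HasCompactSupport (fun y => fderiv ℝ φ y (e3 k)) := fun k =>
    hφs.fderiv_apply (𝕜 := ℝ) (e3 k)
  have hsymm : ∀ (k l : Fin 3) (y : E3),
      fderiv ℝ (fun y => fderiv ℝ φ y (e3 k)) y (e3 l)
        = fderiv ℝ (fun y => fderiv ℝ φ y (e3 l)) y (e3 k) := by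
    intro k l y
    have h1 : DifferentiableAt ℝ (fderiv ℝ φ) y :=
      ((hφ.fderiv_right (m := ∞) (by norm_cast)).differentiable (by norm_num)) y
    have h2 : ∀ m n : Fin 3, fderiv ℝ (fun y => fderiv ℝ φ y (e3 m)) y (e3 n)
        = fderiv ℝ (fderiv ℝ φ) y (e3 n) (e3 m) := by
      intro m n
      rw [fderiv_clm_apply h1 (differentiableAt_const _)]
      simp
    rw [h2, h2]
    exact ((hφ.contDiffAt (x := y)).isSymmSndFDerivAt
      (by simp only [minSmoothness_of_isRCLikeNormedField]; exact WithTop.coe_le_coe.2 (le_top : (2 : ℕ∞) ≤ ⊤))).eq _ _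
  -- integration by parts
  have hI : ∀ i j k, ∫ y, D y i j * fderiv ℝ φ y (e3 k) = ∫ y, D y i k * fderiv ℝ φ y (e3 j) := by
    intro i j k
    have h1 := hv.grad i j _ (hd k) (hds k)
    have h2 := hv.grad i k _ (hd j) (hds j)
    have h3 : ∫ y, v y i * fderiv ℝ (fun y => fderiv ℝ φ y (e3 k)) y (e3 j)
        = ∫ y, v y i * fderiv ℝ (fun y => fderiv ℝ φ y (e3 j)) y (e3 k) := by
      congr 1; ext y; rw [hsymm]
    rw [h1, h2] at h3
    exact neg_injective h3
  have hint : ∀ i j k, Integrable (fun y => D y i j * fderiv ℝ φ y (e3 k)) := fun i j k =>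
    integrable_mul_of_compact (hv.memLp_grad i j) (hd k).continuous (hds k)
  have hexp : ∀ y, fderiv ℝ φ y (vort D y) =
      ((D y 2 1 * fderiv ℝ φ y (e3 0) - D y 1 2 * fderiv ℝ φ y (e3 0))
      + (D y 0 2 * fderiv ℝ φ y (e3 1) - D y 2 0 * fderiv ℝ φ y (e3 1)))
      + (D y 1 0 * fderiv ℝ φ y (e3 2) - D y 0 1 * fderiv ℝ φ y (e3 2)) := by
    intro y
    have h1 : vort D y = (D y 2 1 - D y 1 2) • e3 0 + (D y 0 2 - D y 2 0) • e3 1
        + (D y 1 0 - D y 0 1) • e3 2 := by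
      ext k
      fin_cases k <;> simp [vort, e3]
    rw [h1]
    simp only [map_add, map_smul, smul_eq_mul]
    ring
  simp_rw [hexp]
  rw [integral_add, integral_add, integral_sub, integral_sub, integral_sub, hI 2 1 0, hI 1 2 0,
    hI 0 2 1]
  · ring
  all_goals first
    | exact hint _ _ _
    | exact (hint _ _ _).sub (hint _ _ _)
    | exact ((hint _ _ _).sub (hint _ _ _)).add ((hint _ _ _).sub (hint _ _ _))

end Pool.Agent.Lib.P1c98a8
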