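import Pool.Agent.Lib.P1c98a8.Mollify

/-!
The pointwise bound `|u * φ_R| ≤ C R^{-δ}`, `δ = 1/(2(1+β))`.
-/

open MeasureTheory Set Filter Topology
open scoped ContDiff ENNReal

namespace Pool.Agent.Lib.P1c98a8

/-- constant in the bound of the scale derivative -/
noncomputable def Kc (β c : ℝ) : ℝ := 3 * (Ct β c * (1 + 2 * Mb))

lemma Ct_nonneg {β c : ℝ} (hc : 0 ≤ c) : 0 ≤ Ct β c := by
  unfold Ct; positivity

lemma Kc_nonneg {β c : ℝ} (hc : 0 ≤ c) : 0 ≤ Kc β c := by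
  have := Mb_nonneg
  have := Ct_nonneg (β := β) hc
  unfold Kc; positivity

lemma dl_pos {β : ℝ} (hβ : 0 < β) : 0 < dl β := by unfold dl; positivity

lemma Fm_deriv_bound {v : E3 → E3} {D : E3 → Fin 3 → Fin 3 → ℝ} (hv : IsH1Solenoidal v D)
    {β c : ℝ} (hβ : 0 < β) (hc : 0 ≤ c) (hdir : HolderDirection β c (vort D))
    {ρ : ℝ} (hρ : 0 < ρ) (hρ1 : ρ ≤ 1) (x : E3) (i : Fin 3) :
    ∃ F', HasDerivAt (Fm (fun y => v y i) x) F' ρ ∧
      |F'| ≤ Kc β c * (eLpNorm (vort D) 2 volume).toReal * ρ ^ (-1 - dl β) := by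
  refine ⟨_, hasDerivAt_Fm_grad hv hρ x i, ?_⟩
  have hMb := Mb_nonneg
  have hCt := Ct_nonneg (β := β) hc
  have h1 : ∑ j, ∫ y, D y i j * gker ρ j (x - y)
      = ∑ j, ∫ y, (D y i j - D y j i) * gker ρ j (x - y) := by
    have h2 : ∀ j, ∫ y, (D y i j - D y j i) * gker ρ j (x - y)
        = (∫ y, D y i j * gker ρ j (x - y)) - ∫ y, D y j i * gker ρ j (x - y) := by
      intro j
      rw [← integral_sub (integrable_D_gker hv.memLp_grad hρ x i j j)
        (integrable_D_gker hv.memLp_grad hρ x j i j)]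
      congr 1; ext y; ring
    simp_rw [h2]
    rw [Finset.sum_sub_distrib, cross_zero hv hρ x i, sub_zero]
  rw [h1, abs_neg]
  have h3 : ∀ j, |∫ y, (D y i j - D y j i) * gker ρ j (x - y)|
      ≤ Ct β c * (1 + 2 * Mb) * (eLpNorm (vort D) 2 volume).toReal * ρ ^ (-1 - dl β) := by
    intro j
    obtain ⟨u, hu, hue⟩ := skew_vort i j
    have h4 := tube_bound (memLp_vort hv.memLp_grad) hβ hc (div_vort hv) hdir x u hu hρ hρ1
      (k := fun y => gker ρ j (x - y)) (N := (1 + 2 * Mb) * (ρ ^ 3)⁻¹)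
      (gker_comp_contDiff ρ j x)
      (fun y hy => by
        apply gker_zero hρ
        rw [mem_closedBall_iff_norm, not_le] at hy
        rw [norm_sub_rev]; exact hy.le)
      (fun y => by
        refine (abs_gker_le hρ j (x - y)).trans ?_
        apply le_mul_of_one_le_left (by positivity)
        linarith)
      (fun y => norm_fderiv_gker_le x y hρ j)
    simp_rw [← hue D] at h4
    rw [← Real.norm_eq_abs]
    have h5 := ENNReal.toReal_mono
      (ENNReal.mul_ne_top ENNReal.ofReal_ne_top (memLp_vort hv.memLp_grad).2.ne) h4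
    rw [toReal_enorm, ENNReal.toReal_mul, ENNReal.toReal_ofReal (by positivity)] at h5
    refine h5.trans (le_of_eq ?_)
    have h6 : ρ ^ (2 - dl β) = ρ ^ 3 * ρ ^ (-1 - dl β) := by
      rw [← Real.rpow_natCast ρ 3, ← Real.rpow_add hρ]
      congr 1; push_cast; ring
    rw [h6]
    field_simp
  calc |∑ j, ∫ y, (D y i j - D y j i) * gker ρ j (x - y)|
      ≤ ∑ j, |∫ y, (D y i j - D y j i) * gker ρ j (x - y)| := Finset.abs_sum_le_sum_abs _ _
    _ ≤ ∑ _j : Fin 3, Ct β c * (1 + 2 * Mb) * (eLpNorm (vort D) 2 volume).toReal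
        * ρ ^ (-1 - dl β) := Finset.sum_le_sum fun j _ => h3 j
    _ = Kc β c * (eLpNorm (vort D) 2 volume).toReal * ρ ^ (-1 - dl β) := by
        rw [Fin.sum_univ_three]; unfold Kc; ring

lemma Fm_one_bound {v : E3 → E3} (hv : MemLp v 2 volume) (x : E3) (i : Fin 3) :
    |Fm (fun y => v y i) x 1| ≤ Real.sqrt Vb * (eLpNorm v 2 volume).toReal := by
  have h1 : ‖Fm (fun y => v y i) x 1‖ₑ ≤ ENNReal.ofReal (Real.sqrt Vb) * eLpNorm v 2 volume := by
    have h2 := ball_mass hv x (ρ := 1) one_pos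
    rw [Real.one_rpow, mul_one] at h2
    refine le_trans ?_ h2
    refine (enorm_integral_le_lintegral_enorm _).trans ?_
    apply lintegral_mono fun y => ?_
    by_cases hy : y ∈ Metric.closedBall x 1
    · rw [indicator_of_mem hy, ← ofReal_norm, ← ofReal_norm]
      apply ENNReal.ofReal_le_ofReal
      rw [norm_mul]
      have h3 : ‖ker 1 (x - y)‖ ≤ 1 := by
        rw [Real.norm_eq_abs, abs_of_nonneg (ker_nonneg one_pos _)]
        simpa using ker_le one_pos (x - y)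
      calc ‖v y i‖ * ‖ker 1 (x - y)‖ ≤ ‖v y‖ * 1 := by
            gcongr
            exact PiLp.norm_apply_le (v y) i
        _ = ‖v y‖ := mul_one _
    · have : ker 1 (x - y) = 0 := by
        apply ker_zero one_pos
        rw [mem_closedBall_iff_norm, not_le] at hy
        rw [norm_sub_rev]; exact hy.le
      simp [this]
  have h5 := ENNReal.toReal_mono (ENNReal.mul_ne_top ENNReal.ofReal_ne_top hv.2.ne) h1
  rw [toReal_enorm, ENNReal.toReal_mul, ENNReal.toReal_ofReal (by positivity)] at h5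
  exact h5

/-- pointwise bound of the mollified velocity -/
lemma Fm_bound {v : E3 → E3} {D : E3 → Fin 3 → Fin 3 → ℝ} (hv : IsH1Solenoidal v D)
    {β c : ℝ} (hβ : 0 < β) (hc : 0 ≤ c) (hdir : HolderDirection β c (vort D))
    {R : ℝ} (hR : 0 < R) (hR1 : R ≤ 1) (x : E3) (i : Fin 3) :
    |Fm (fun y => v y i) x R| ≤ (Real.sqrt Vb * (eLpNorm v 2 volume).toReal
      + Kc β c / dl β * (eLpNorm (vort D) 2 volume).toReal) * R ^ (- dl β) := by
  set A : ℝ := (eLpNorm (vort D) 2 volume).toReal with hA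
  have hA0 : 0 ≤ A := ENNReal.toReal_nonneg
  have hδ := dl_pos hβ
  have hK := Kc_nonneg (β := β) hc
  have hF1 := Fm_one_bound hv.memLp x i
  set F : ℝ → ℝ := Fm (fun y => v y i) x with hF
  have hd : ∀ ρ ∈ Icc R 1, ∃ F', HasDerivAt F F' ρ ∧ |F'| ≤ Kc β c * A * ρ ^ (-1 - dl β) :=
    fun ρ hρ => Fm_deriv_bound hv hβ hc hdir (hR.trans_le hρ.1) hρ.2 x i
  have hp : ∀ ρ ∈ Icc R 1, HasDerivAt (fun ρ : ℝ => Kc β c / dl β * A * ρ ^ (- dl β))
      (-(Kc β c * A * ρ ^ (-1 - dl β))) ρ := by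
    intro ρ hρ
    have hρ0 : 0 < ρ := hR.trans_le hρ.1
    have h1 := (Real.hasDerivAt_rpow_const (x := ρ) (p := - dl β) (Or.inl hρ0.ne')).const_mul
      (Kc β c / dl β * A)
    refine HasDerivAt.congr_deriv h1 ?_
    rw [show - dl β - 1 = -1 - dl β by ring]
    field_simp
  have h1R : R ∈ Icc R 1 := ⟨le_rfl, hR1⟩
  have h11 : (1 : ℝ) ∈ Icc R 1 := ⟨hR1, le_rfl⟩
  have hmono : MonotoneOn (fun ρ => F ρ - Kc β c / dl β * A * ρ ^ (- dl β)) (Icc R 1) := by
    apply monotoneOn_of_deriv_nonneg (convex_Icc R 1)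
    · intro ρ hρ
      obtain ⟨F', hF', _⟩ := hd ρ hρ
      exact (hF'.fun_sub (hp ρ hρ)).continuousAt.continuousWithinAt
    · intro ρ hρ
      rw [interior_Icc] at hρ
      have hρ' : ρ ∈ Icc R 1 := Ioo_subset_Icc_self hρ
      obtain ⟨F', hF', _⟩ := hd ρ hρ'
      exact (hF'.fun_sub (hp ρ hρ')).differentiableAt.differentiableWithinAt
    · intro ρ hρ
      rw [interior_Icc] at hρ
      have hρ' : ρ ∈ Icc R 1 := Ioo_subset_Icc_self hρ
      obtain ⟨F', hF', hb⟩ := hd ρ hρ'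
      rw [(hF'.fun_sub (hp ρ hρ')).deriv]
      have := (abs_le.1 hb).1
      linarith
  have hanti : AntitoneOn (fun ρ => F ρ + Kc β c / dl β * A * ρ ^ (- dl β)) (Icc R 1) := by
    apply antitoneOn_of_deriv_nonpos (convex_Icc R 1)
    · intro ρ hρ
      obtain ⟨F', hF', _⟩ := hd ρ hρ
      exact (hF'.fun_add (hp ρ hρ)).continuousAt.continuousWithinAt
    · intro ρ hρ
      rw [interior_Icc] at hρ
      have hρ' : ρ ∈ Icc R 1 := Ioo_subset_Icc_self hρ
      obtain ⟨F', hF', _⟩ := hd ρ hρ'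
      exact (hF'.fun_add (hp ρ hρ')).differentiableAt.differentiableWithinAt
    · intro ρ hρ
      rw [interior_Icc] at hρ
      have hρ' : ρ ∈ Icc R 1 := Ioo_subset_Icc_self hρ
      obtain ⟨F', hF', hb⟩ := hd ρ hρ'
      rw [(hF'.fun_add (hp ρ hρ')).deriv]
      have := (abs_le.1 hb).2
      linarith
  have h1 := hmono h1R h11 hR1
  have h2 := hanti h1R h11 hR1
  simp only [Real.one_rpow, mul_one] at h1 h2
  have hRp : 1 ≤ R ^ (- dl β) := Real.one_le_rpow_of_pos_of_le_one_of_nonpos hR hR1 (by linarith)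
  have hKA : 0 ≤ Kc β c / dl β * A := by positivity
  have hF1' := abs_le.1 hF1
  have hS : 0 ≤ Real.sqrt Vb * (eLpNorm v 2 volume).toReal := by positivity
  have hS2 : Real.sqrt Vb * (eLpNorm v 2 volume).toReal
      ≤ Real.sqrt Vb * (eLpNorm v 2 volume).toReal * R ^ (- dl β) :=
    le_mul_of_one_le_right hS hRp
  rw [abs_le]
  constructor
  · nlinarith
  · nlinarith

end Pool.Agent.Lib.P1c98a8
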