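import Pool.Agent.Lib.P1c98a8.LevelSet

/-!
The improved Sobolev inequality at a fixed time.
-/

open MeasureTheory Set Filter Topology
open scoped ENNReal

namespace Pool.Agent.Lib.P1c98a8

/-- square of the `H¹` norm -/
noncomputable def E2 (v : E3 → E3) (D : E3 → Fin 3 → Fin 3 → ℝ) : ℝ≥0∞ :=
  (∫⁻ x, ‖v x‖ₑ ^ 2) + ∫⁻ x, ENNReal.ofReal (∑ i, ∑ j, D x i j ^ 2)

lemma eLpNorm_two_sq {F : Type*} [NormedAddCommGroup F] (f : E3 → F) :
    eLpNorm f 2 volume ^ 2 = ∫⁻ x, ‖f x‖ₑ ^ 2 := by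
  rw [eLpNorm_eq_lintegral_rpow_enorm_toReal (by norm_num) (by norm_num)]
  rw [← ENNReal.rpow_natCast, ← ENNReal.rpow_mul]
  norm_num

lemma enorm_sq_eq (a : ℝ) : ‖a‖ₑ ^ 2 = ENNReal.ofReal (a ^ 2) := by
  rw [Real.enorm_eq_ofReal_abs, ← ENNReal.ofReal_pow (abs_nonneg _), sq_abs]

lemma D_sq_le (D : E3 → Fin 3 → Fin 3 → ℝ) (x : E3) (i j : Fin 3) :
    D x i j ^ 2 ≤ ∑ i, ∑ j, D x i j ^ 2 := by
  calc D x i j ^ 2 ≤ ∑ j, D x i j ^ 2 :=
        Finset.single_le_sum (f := fun j => D x i j ^ 2) (fun j _ => sq_nonneg _) (Finset.mem_univ j)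
    _ ≤ ∑ i, ∑ j, D x i j ^ 2 :=
        Finset.single_le_sum (f := fun i => ∑ j, D x i j ^ 2)
          (fun i _ => Finset.sum_nonneg fun j _ => sq_nonneg _) (Finset.mem_univ i)

lemma v_le_E2 (v : E3 → E3) (D : E3 → Fin 3 → Fin 3 → ℝ) :
    eLpNorm v 2 volume ^ 2 ≤ E2 v D := by
  rw [eLpNorm_two_sq]; exact le_self_add

lemma D_le_E2 (v : E3 → E3) (D : E3 → Fin 3 → Fin 3 → ℝ) (i j : Fin 3) :
    eLpNorm (fun x => D x i j) 2 volume ^ 2 ≤ E2 v D := by
  rw [eLpNorm_two_sq]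
  refine le_trans ?_ (le_add_of_nonneg_left zero_le)
  apply lintegral_mono fun x => ?_
  rw [enorm_sq_eq]
  exact ENNReal.ofReal_le_ofReal (D_sq_le D x i j)

lemma gsum_le_E2 (v : E3 → E3) (D : E3 → Fin 3 → Fin 3 → ℝ) (i : Fin 3) :
    ∫⁻ y, gsum D i y ^ 2 ≤ 3 * E2 v D := by
  have h1 : ∀ y, gsum D i y ^ 2 ≤ 3 * ENNReal.ofReal (∑ i, ∑ j, D y i j ^ 2) := by
    intro y
    have h2 : gsum D i y = ENNReal.ofReal (∑ j, |D y i j|) := by
      unfold gsum
      rw [ENNReal.ofReal_sum_of_nonneg (fun j _ => abs_nonneg _)]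
      exact Finset.sum_congr rfl fun j _ => Real.enorm_eq_ofReal_abs _
    rw [h2, ← ENNReal.ofReal_pow (Finset.sum_nonneg fun j _ => abs_nonneg _),
      show (3 : ℝ≥0∞) = ENNReal.ofReal 3 by simp, ← ENNReal.ofReal_mul (by norm_num)]
    apply ENNReal.ofReal_le_ofReal
    calc (∑ j, |D y i j|) ^ 2 ≤ 3 * ∑ j, |D y i j| ^ 2 := by
          have := sq_sum_le_card_mul_sum_sq (s := (Finset.univ : Finset (Fin 3)))
            (f := fun j => |D y i j|)
          simpa using this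
      _ = 3 * ∑ j, D y i j ^ 2 := by simp
      _ ≤ 3 * ∑ i, ∑ j, D y i j ^ 2 :=
          mul_le_mul_of_nonneg_left (Finset.single_le_sum (f := fun i => ∑ j, D y i j ^ 2)
            (fun i _ => Finset.sum_nonneg fun j _ => sq_nonneg _) (Finset.mem_univ i))
            (by norm_num)
  calc ∫⁻ y, gsum D i y ^ 2 ≤ ∫⁻ y, 3 * ENNReal.ofReal (∑ i, ∑ j, D y i j ^ 2) :=
        lintegral_mono h1
    _ = 3 * ∫⁻ y, ENNReal.ofReal (∑ i, ∑ j, D y i j ^ 2) := by
        rw [lintegral_const_mul' _ _ (by norm_num)]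
    _ ≤ 3 * E2 v D := by
        unfold E2
        gcongr
        exact le_add_of_nonneg_left zero_le

lemma E2_lt_top {v : E3 → E3} {D : E3 → Fin 3 → Fin 3 → ℝ} (hv : IsH1Solenoidal v D) :
    E2 v D < ⊤ := by
  unfold E2
  refine ENNReal.add_lt_top.2 ⟨?_, ?_⟩
  · rw [← eLpNorm_two_sq]
    exact ENNReal.pow_lt_top hv.memLp.2
  · have h1 : ∀ x, ENNReal.ofReal (∑ i, ∑ j, D x i j ^ 2) = ∑ i, ∑ j, ‖D x i j‖ₑ ^ 2 := by
      intro x
      rw [ENNReal.ofReal_sum_of_nonneg (fun i _ => Finset.sum_nonneg fun j _ => sq_nonneg _)]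
      refine Finset.sum_congr rfl fun i _ => ?_
      rw [ENNReal.ofReal_sum_of_nonneg (fun j _ => sq_nonneg _)]
      exact Finset.sum_congr rfl fun j _ => (enorm_sq_eq _).symm
    simp_rw [h1]
    have hm : ∀ i j, AEMeasurable (fun x => ‖D x i j‖ₑ ^ 2) (volume : Measure E3) := fun i j =>
      (hv.memLp_grad i j).1.enorm.pow_const _
    rw [lintegral_finsetSum' _ fun i _ => Finset.aemeasurable_fun_sum _ fun j _ => hm i j]
    apply ENNReal.sum_lt_top.2
    intro i _
    rw [lintegral_finsetSum' _ fun j _ => hm i j]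
    apply ENNReal.sum_lt_top.2
    intro j _
    rw [← eLpNorm_two_sq]
    exact ENNReal.pow_lt_top (hv.memLp_grad i j).2

lemma vort_norm_le {v : E3 → E3} {D : E3 → Fin 3 → Fin 3 → ℝ} (hv : IsH1Solenoidal v D) {B : ℝ}
    (hB : 0 ≤ B) (hBD : ∀ i j, eLpNorm (fun x => D x i j) 2 volume ≤ ENNReal.ofReal B) :
    eLpNorm (vort D) 2 volume ≤ ENNReal.ofReal (6 * B) := by
  have h1 : vort D = fun x => (D x 2 1 - D x 1 2) • e3 0 + (D x 0 2 - D x 2 0) • e3 1
      + (D x 1 0 - D x 0 1) • e3 2 := by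
    ext x k
    fin_cases k <;> simp [vort, e3]
  have hL : ∀ (f : E3 → ℝ) (k : Fin 3), MemLp f 2 volume → MemLp (fun x => f x • e3 k) 2 volume := by
    intro f k hf
    exact hf.continuousLinearMap_comp (ContinuousLinearMap.toSpanSingleton ℝ (e3 k))
  have h2 : ∀ (i j k l m : Fin 3), eLpNorm (fun x => (D x i j - D x k l) • e3 m) 2 volume
      ≤ ENNReal.ofReal (2 * B) := by
    intro i j k l m
    have h3 : eLpNorm (fun x => (D x i j - D x k l) • e3 m) 2 volume
        = eLpNorm (fun x => D x i j - D x k l) 2 volume := by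
      apply eLpNorm_congr_norm_ae
      refine Eventually.of_forall fun x => ?_
      rw [norm_smul]; simp [e3]
    rw [h3]
    calc eLpNorm (fun x => D x i j - D x k l) 2 volume
        ≤ eLpNorm (fun x => D x i j) 2 volume + eLpNorm (fun x => D x k l) 2 volume :=
          eLpNorm_sub_le (hv.memLp_grad i j).1 (hv.memLp_grad k l).1 (by norm_num)
      _ ≤ ENNReal.ofReal B + ENNReal.ofReal B := add_le_add (hBD i j) (hBD k l)
      _ = ENNReal.ofReal (2 * B) := by rw [← ENNReal.ofReal_add hB hB]; congr 1; ring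
  have hm : ∀ (i j k l m : Fin 3), MemLp (fun x => (D x i j - D x k l) • e3 m) 2 volume :=
    fun i j k l m => hL _ m ((hv.memLp_grad i j).sub (hv.memLp_grad k l))
  rw [h1]
  calc eLpNorm (fun x => (D x 2 1 - D x 1 2) • e3 0 + (D x 0 2 - D x 2 0) • e3 1
      + (D x 1 0 - D x 0 1) • e3 2) 2 volume
      ≤ eLpNorm (fun x => (D x 2 1 - D x 1 2) • e3 0 + (D x 0 2 - D x 2 0) • e3 1) 2 volume
        + eLpNorm (fun x => (D x 1 0 - D x 0 1) • e3 2) 2 volume :=
        eLpNorm_add_le ((hm 2 1 1 2 0).add (hm 0 2 2 0 1)).1 (hm 1 0 0 1 2).1 (by norm_num)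
    _ ≤ (eLpNorm (fun x => (D x 2 1 - D x 1 2) • e3 0) 2 volume
        + eLpNorm (fun x => (D x 0 2 - D x 2 0) • e3 1) 2 volume)
        + eLpNorm (fun x => (D x 1 0 - D x 0 1) • e3 2) 2 volume := by
        gcongr
        exact eLpNorm_add_le (hm 2 1 1 2 0).1 (hm 0 2 2 0 1).1 (by norm_num)
    _ ≤ (ENNReal.ofReal (2 * B) + ENNReal.ofReal (2 * B)) + ENNReal.ofReal (2 * B) := by
        gcongr
        · exact h2 _ _ _ _ _
        · exact h2 _ _ _ _ _
        · exact h2 _ _ _ _ _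
    _ = ENNReal.ofReal (6 * B) := by
        rw [← ENNReal.ofReal_add (by positivity) (by positivity),
          ← ENNReal.ofReal_add (by positivity) (by positivity)]
        congr 1; ring

lemma Fm_aemeasurable {f : E3 → ℝ} (hf : MemLp f 2 volume) (R : ℝ) :
    AEMeasurable (fun x => Fm f x R) volume := by
  have h1 : AEStronglyMeasurable (fun p : E3 × E3 => f p.2 * ker R (p.1 - p.2))
      ((volume : Measure E3).prod volume) := by
    apply AEStronglyMeasurable.mul
    · exact hf.1.comp_snd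
    · exact ((ker_continuous R).comp (by fun_prop)).aestronglyMeasurable
  exact h1.integral_prod_right'.aemeasurable

/-- constants of the static bound -/
noncomputable def C1s (β c : ℝ) : ℝ := (Real.sqrt Vb + 6 * (Kc β c / dl β)) / Zc + 1

noncomputable def C2s : ℝ := 3 * Vb ^ 2 / Zc ^ 2

/-- component bound -/
lemma comp_bound {v : E3 → E3} {D : E3 → Fin 3 → Fin 3 → ℝ} (hv : IsH1Solenoidal v D)
    {β c q : ℝ} (hβ : 0 < β) (hc : 0 ≤ c) (hq : 2 < q)
    (hdir : HolderDirection β c (vort D)) {B : ℝ} (hB : 0 < B)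
    (hE : E2 v D = ENNReal.ofReal (B ^ 2)) (i : Fin 3) :
    ∫⁻ x, ‖v x i / B‖ₑ ^ q ≤ Kls (C1s β c) C2s (dl β) q := by
  have hZ := Zc_pos
  have hV := Vb_nonneg
  have hK := Kc_nonneg (β := β) hc
  have hδ := dl_pos hβ
  have hC1 : 0 < C1s β c := by unfold C1s; positivity
  have hC2 : 0 ≤ C2s := by unfold C2s; positivity
  have hsq : ∀ {a : ℝ≥0∞}, a ^ 2 ≤ E2 v D → a ≤ ENNReal.ofReal B := by
    intro a ha
    rw [hE, ENNReal.ofReal_pow hB.le] at ha
    exact (ENNReal.pow_le_pow_left_iff (by norm_num)).1 ha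
  have hvB : eLpNorm v 2 volume ≤ ENNReal.ofReal B := hsq (v_le_E2 v D)
  have hDB : ∀ i j, eLpNorm (fun x => D x i j) 2 volume ≤ ENNReal.ofReal B := fun i j =>
    hsq (D_le_E2 v D i j)
  have hwB := vort_norm_le hv hB.le hDB
  have hvB' : (eLpNorm v 2 volume).toReal ≤ B := ENNReal.toReal_le_of_le_ofReal hB.le hvB
  have hwB' : (eLpNorm (vort D) 2 volume).toReal ≤ 6 * B :=
    ENNReal.toReal_le_of_le_ofReal (by positivity) hwB
  have hvi : MemLp (fun y => v y i) 2 volume := memLp_comp hv.memLp i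
  apply level_set (hvi.1.aemeasurable.div_const B) hC1 hC2 hδ hq
  · have h1 : ∀ x, ‖v x i / B‖ₑ ^ 2 ≤ ENNReal.ofReal ((B ^ 2)⁻¹) * ‖v x‖ₑ ^ 2 := by
      intro x
      rw [enorm_sq_eq, ← ofReal_norm, ← ENNReal.ofReal_pow (norm_nonneg _),
        ← ENNReal.ofReal_mul (by positivity)]
      apply ENNReal.ofReal_le_ofReal
      rw [div_pow, div_eq_inv_mul]
      have h0 : ‖v x i‖ ≤ ‖v x‖ := PiLp.norm_apply_le (v x) i
      have h1 : v x i ^ 2 ≤ ‖v x‖ ^ 2 := by
        calc v x i ^ 2 = ‖v x i‖ ^ 2 := by rw [Real.norm_eq_abs, sq_abs]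
          _ ≤ ‖v x‖ ^ 2 := by gcongr
      exact mul_le_mul_of_nonneg_left h1 (by positivity)
    calc ∫⁻ x, ‖v x i / B‖ₑ ^ 2 ≤ ∫⁻ x, ENNReal.ofReal ((B ^ 2)⁻¹) * ‖v x‖ₑ ^ 2 :=
          lintegral_mono h1
      _ = ENNReal.ofReal ((B ^ 2)⁻¹) * ∫⁻ x, ‖v x‖ₑ ^ 2 :=
          lintegral_const_mul' _ _ ENNReal.ofReal_ne_top
      _ ≤ ENNReal.ofReal ((B ^ 2)⁻¹) * ENNReal.ofReal (B ^ 2) := by
          gcongr
          rw [← eLpNorm_two_sq, ← hE]
          exact v_le_E2 v D
      _ = 1 := by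
          rw [← ENNReal.ofReal_mul (by positivity), inv_mul_cancel₀ (by positivity)]
          simp
  · intro R hR hR1
    refine ⟨fun x => Fm (fun y => v y i) x R / (Zc * B), (Fm_aemeasurable hvi R).div_const _, ?_, ?_⟩
    · intro x
      have h1 := Fm_bound hv hβ hc hdir hR hR1 x i
      rw [abs_div, abs_of_pos (a := Zc * B) (by positivity), div_le_iff₀ (by positivity)]
      refine h1.trans ?_
      have hRp : 0 < R ^ (- dl β) := Real.rpow_pos_of_pos hR _
      rw [mul_right_comm]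
      gcongr
      have h2 : Real.sqrt Vb * (eLpNorm v 2 volume).toReal ≤ Real.sqrt Vb * B := by gcongr
      have h3 : Kc β c / dl β * (eLpNorm (vort D) 2 volume).toReal ≤ Kc β c / dl β * (6 * B) := by
        gcongr
      have h4 : C1s β c * (Zc * B) = (Real.sqrt Vb + 6 * (Kc β c / dl β)) * B + Zc * B := by
        unfold C1s; field_simp
      rw [h4]
      have h5 : 0 ≤ Zc * B := by positivity
      linarith
    · have h1 : ∀ x, ‖Fm (fun y => v y i) x R / (Zc * B) - v x i / B‖ₑ ^ 2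
          = ENNReal.ofReal (((Zc * B) ^ 2)⁻¹) * ‖Fm (fun y => v y i) x R - Zc * v x i‖ₑ ^ 2 := by
        intro x
        rw [enorm_sq_eq, enorm_sq_eq, ← ENNReal.ofReal_mul (by positivity)]
        congr 1
        field_simp
      simp_rw [h1]
      rw [lintegral_const_mul' _ _ ENNReal.ofReal_ne_top]
      calc ENNReal.ofReal (((Zc * B) ^ 2)⁻¹) * ∫⁻ x, ‖Fm (fun y => v y i) x R - Zc * v x i‖ₑ ^ 2
          ≤ ENNReal.ofReal (((Zc * B) ^ 2)⁻¹) *
            (ENNReal.ofReal (R ^ 2 * Vb ^ 2) * (3 * ENNReal.ofReal (B ^ 2))) := by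
            gcongr
            refine (L2_dist hv hR i).trans ?_
            gcongr
            rw [← hE]
            exact gsum_le_E2 v D i
        _ = ENNReal.ofReal (C2s * R ^ 2) := by
            rw [show (3 : ℝ≥0∞) = ENNReal.ofReal 3 by simp, ← ENNReal.ofReal_mul (by norm_num),
              ← ENNReal.ofReal_mul (by positivity), ← ENNReal.ofReal_mul (by positivity)]
            congr 1
            unfold C2s
            field_simp

/-- The improved Sobolev inequality: for a divergence free `v ∈ H¹` whose vorticity has a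
`β`-Hoelder continuous direction, `‖v‖_{L^q}² ≤ C ‖v‖_{H¹}²` for every `2 < q < 6 + 4β`. -/
theorem static_bound {β c q : ℝ} (hβ : 0 < β) (hc : 0 ≤ c) (hq : 2 < q) (hq' : q < 6 + 4 * β) :
    ∃ C : ℝ≥0∞, C < ⊤ ∧ ∀ (v : E3 → E3) (D : E3 → Fin 3 → Fin 3 → ℝ), IsH1Solenoidal v D →
      HolderDirection β c (vort D) →
        (eLpNorm v (ENNReal.ofReal q) volume) ^ 2 ≤ C * E2 v D := by
  have hZ := Zc_pos
  have hV := Vb_nonneg
  have hK := Kc_nonneg (β := β) hc
  have hδ := dl_pos hβ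
  have hC1 : 0 < C1s β c := by unfold C1s; positivity
  have hq0 : 0 < q := by linarith
  have hKt : Kls (C1s β c) C2s (dl β) q < ⊤ := by
    apply Kls_lt_top hC1 hδ
    unfold dl
    rw [div_div_eq_mul_div, div_one]
    linarith
  set K := Kls (C1s β c) C2s (dl β) q with hKdef
  refine ⟨9 * (K ^ (1 / q)) ^ 2, ?_, ?_⟩
  · apply ENNReal.mul_lt_top (by norm_num)
    apply ENNReal.pow_lt_top
    exact ENNReal.rpow_lt_top_of_nonneg (by positivity) hKt.ne
  intro v D hv hdir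
  have hEt := E2_lt_top hv
  by_cases hE0 : E2 v D = 0
  · have h1 : ∫⁻ x, ‖v x‖ₑ ^ 2 = 0 := by
      unfold E2 at hE0
      exact (add_eq_zero.1 hE0).1
    have h2 : eLpNorm v 2 volume = 0 := by
      have := eLpNorm_two_sq v
      rw [h1] at this
      exact pow_eq_zero_iff (by norm_num) |>.1 this
    have h3 : v =ᵐ[volume] 0 := (eLpNorm_eq_zero_iff hv.memLp.1 (by norm_num)).1 h2
    rw [eLpNorm_congr_ae h3]
    simp
  · set B : ℝ := Real.sqrt (E2 v D).toReal with hB
    have hEpos : 0 < (E2 v D).toReal := ENNReal.toReal_pos hE0 hEt.ne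
    have hBpos : 0 < B := Real.sqrt_pos.2 hEpos
    have hE : E2 v D = ENNReal.ofReal (B ^ 2) := by
      rw [hB, Real.sq_sqrt hEpos.le, ENNReal.ofReal_toReal hEt.ne]
    have hqtr : (ENNReal.ofReal q).toReal = q := ENNReal.toReal_ofReal hq0.le
    have hcomp : ∀ i, eLpNorm (fun x => v x i) (ENNReal.ofReal q) volume
        ≤ ENNReal.ofReal B * K ^ (1 / q) := by
      intro i
      have h1 := comp_bound hv hβ hc hq hdir hBpos hE i
      rw [eLpNorm_eq_lintegral_rpow_enorm_toReal (by simpa using hq0) ENNReal.ofReal_ne_top, hqtr]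
      have h2 : ∀ x, ‖v x i‖ₑ ^ q = (ENNReal.ofReal B) ^ q * ‖v x i / B‖ₑ ^ q := by
        intro x
        rw [← ENNReal.mul_rpow_of_nonneg _ _ hq0.le]
        congr 1
        rw [Real.enorm_eq_ofReal_abs, Real.enorm_eq_ofReal_abs, ← ENNReal.ofReal_mul hBpos.le,
          abs_div, abs_of_pos hBpos]
        congr 1
        field_simp
      simp_rw [h2]
      rw [lintegral_const_mul' _ _ (ENNReal.rpow_ne_top_of_nonneg hq0.le ENNReal.ofReal_ne_top),
        ENNReal.mul_rpow_of_nonneg _ _ (by positivity), ← ENNReal.rpow_mul,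
        mul_one_div_cancel hq0.ne', ENNReal.rpow_one]
      gcongr
    have hvsum : v = fun x => v x 0 • e3 0 + v x 1 • e3 1 + v x 2 • e3 2 := by
      ext x k
      fin_cases k <;> simp [e3]
    have hq1 : 1 ≤ ENNReal.ofReal q := by
      rw [ENNReal.one_le_ofReal]; linarith
    have hm : ∀ i, AEStronglyMeasurable (fun x => v x i • e3 i) volume := fun i =>
      (memLp_comp hv.memLp i).1.smul_const (e3 i)
    have hsm : ∀ i, eLpNorm (fun x => v x i • e3 i) (ENNReal.ofReal q) volume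
        ≤ ENNReal.ofReal B * K ^ (1 / q) := by
      intro i
      refine le_trans (le_of_eq ?_) (hcomp i)
      apply eLpNorm_congr_norm_ae
      refine Eventually.of_forall fun x => ?_
      rw [norm_smul]; simp [e3]
    have htot : eLpNorm v (ENNReal.ofReal q) volume ≤ 3 * (ENNReal.ofReal B * K ^ (1 / q)) := by
      calc eLpNorm v (ENNReal.ofReal q) volume
          = eLpNorm (fun x => v x 0 • e3 0 + v x 1 • e3 1 + v x 2 • e3 2)
            (ENNReal.ofReal q) volume := by rw [← hvsum]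
        _ ≤ eLpNorm (fun x => v x 0 • e3 0 + v x 1 • e3 1) (ENNReal.ofReal q) volume
            + eLpNorm (fun x => v x 2 • e3 2) (ENNReal.ofReal q) volume :=
            eLpNorm_add_le ((hm 0).add (hm 1)) (hm 2) hq1
        _ ≤ (eLpNorm (fun x => v x 0 • e3 0) (ENNReal.ofReal q) volume
            + eLpNorm (fun x => v x 1 • e3 1) (ENNReal.ofReal q) volume)
            + eLpNorm (fun x => v x 2 • e3 2) (ENNReal.ofReal q) volume := by
            gcongr
            exact eLpNorm_add_le (hm 0) (hm 1) hq1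
        _ ≤ (ENNReal.ofReal B * K ^ (1 / q) + ENNReal.ofReal B * K ^ (1 / q))
            + ENNReal.ofReal B * K ^ (1 / q) := by
            gcongr
            · exact hsm 0
            · exact hsm 1
            · exact hsm 2
        _ = 3 * (ENNReal.ofReal B * K ^ (1 / q)) := by ring
    calc (eLpNorm v (ENNReal.ofReal q) volume) ^ 2
        ≤ (3 * (ENNReal.ofReal B * K ^ (1 / q))) ^ 2 := by gcongr
      _ = 9 * (K ^ (1 / q)) ^ 2 * E2 v D := by
          rw [hE, ENNReal.ofReal_pow hBpos.le]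
          ring

end Pool.Agent.Lib.P1c98a8
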