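import Pool.Agent.Lib.P1c98a8.Defs

/-!
The tube lemma: a square integrable solenoidal field whose direction is Hoelder continuous has
small averages against smooth kernels.
-/

open MeasureTheory Set Filter Topology
open scoped ContDiff ENNReal

namespace Pool.Agent.Lib.P1c98a8

lemma integrable_mul_of_compact {g h : E3 → ℝ} (hg : MemLp g 2 volume) (hh : Continuous h)
    (hs : HasCompactSupport h) : Integrable (fun y => g y * h y) := by
  have h2 : MemLp h 2 volume := hh.memLp_of_hasCompactSupport hs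
  exact hg.integrable_mul h2

lemma hasDerivAt_shift {g k : E3 → ℝ} (hg : MemLp g 2 volume) (hk : ContDiff ℝ ∞ k)
    (hks : HasCompactSupport k) (e : E3) (τ : ℝ) :
    HasDerivAt (fun τ : ℝ => ∫ y, g y * k (y - τ • e))
      (- ∫ y, g y * fderiv ℝ k (y - τ • e) e) τ := by
  have hk1 : ContDiff ℝ 1 k := hk.of_le (by exact_mod_cast le_top)
  have hkc : Continuous k := hk.continuous
  have hdk : Continuous (fderiv ℝ k) := hk1.continuous_fderiv (by norm_num)
  have hdks : HasCompactSupport (fderiv ℝ k) := hks.fderiv (𝕜 := ℝ)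
  obtain ⟨C, hC⟩ := hdks.exists_bound_of_continuous hdk
  have hC0 : 0 ≤ C := le_trans (norm_nonneg _) (hC 0)
  obtain ⟨R0, hR0⟩ := hks.isCompact.isBounded.subset_closedBall (0 : E3)
  set R : ℝ := R0 + (|τ| + 1) * ‖e‖ with hR
  have hzero : ∀ σ : ℝ, σ ∈ Metric.ball τ 1 → ∀ y : E3, y ∉ Metric.closedBall (0 : E3) R →
      y - σ • e ∉ tsupport k := by
    intro σ hσ y hy hmem
    have h1 := hR0 hmem
    simp only [Metric.mem_closedBall, dist_zero_right, not_le] at h1 hy
    have h2 : ‖y‖ ≤ ‖y - σ • e‖ + ‖σ • e‖ := by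
      calc ‖y‖ = ‖(y - σ • e) + σ • e‖ := by simp
        _ ≤ _ := norm_add_le _ _
    have h3 : ‖σ • e‖ ≤ (|τ| + 1) * ‖e‖ := by
      rw [norm_smul]
      apply mul_le_mul_of_nonneg_right _ (norm_nonneg _)
      have : |σ| ≤ |τ| + |σ - τ| := by
        calc |σ| = |τ + (σ - τ)| := by ring_nf
          _ ≤ _ := abs_add_le _ _
      have h4 : |σ - τ| < 1 := by simpa [Real.dist_eq] using hσ
      rw [Real.norm_eq_abs]; linarith
    linarith
  have hmeas_g : AEStronglyMeasurable g volume := hg.1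
  have key := hasDerivAt_integral_of_dominated_loc_of_deriv_le (μ := (volume : Measure E3))
    (F := fun (σ : ℝ) y => g y * k (y - σ • e))
    (F' := fun (σ : ℝ) y => g y * (-(fderiv ℝ k (y - σ • e) e))) (x₀ := τ) (s := Metric.ball τ 1)
    (bound := fun y => ‖g y‖ * ((Metric.closedBall (0 : E3) R).indicator (fun _ => C * ‖e‖) y))
    (Metric.ball_mem_nhds τ one_pos) ?_ ?_ ?_ ?_ ?_ ?_
  · have e1 : (- ∫ y, g y * fderiv ℝ k (y - τ • e) e)
        = ∫ y, g y * (-(fderiv ℝ k (y - τ • e) e)) := by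
      rw [← integral_neg]
      congr 1
      ext y; ring
    rw [e1]
    exact key.2
  · refine Eventually.of_forall fun σ => ?_
    exact hmeas_g.mul (hkc.comp (by fun_prop)).aestronglyMeasurable
  · apply integrable_mul_of_compact hg (hkc.comp (by fun_prop))
    exact hks.comp_homeomorph (Homeomorph.subRight (τ • e))
  · exact hmeas_g.mul (((hdk.comp (by fun_prop)).clm_apply continuous_const).neg).aestronglyMeasurable
  · refine Eventually.of_forall fun y σ hσ => ?_
    rw [norm_mul]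
    apply mul_le_mul_of_nonneg_left _ (norm_nonneg _)
    by_cases hy : y ∈ Metric.closedBall (0 : E3) R
    · rw [indicator_of_mem hy, norm_neg]
      calc ‖fderiv ℝ k (y - σ • e) e‖ ≤ ‖fderiv ℝ k (y - σ • e)‖ * ‖e‖ :=
            ContinuousLinearMap.le_opNorm _ _
        _ ≤ C * ‖e‖ := by gcongr; exact hC _
    · rw [indicator_of_notMem hy, norm_neg]
      have : y - σ • e ∉ tsupport (fderiv ℝ k) := fun h => hzero σ hσ y hy (tsupport_fderiv_subset ℝ h)
      rw [image_eq_zero_of_notMem_tsupport this]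
      simp
  · have hI : MemLp ((Metric.closedBall (0 : E3) R).indicator (fun _ => C * ‖e‖)) 2 volume := by
      apply memLp_indicator_const 2 measurableSet_closedBall
      right
      exact (isCompact_closedBall (0 : E3) R).measure_lt_top.ne
    exact hg.norm.integrable_mul hI
  · refine Eventually.of_forall fun y σ _ => ?_
    have h1 : HasFDerivAt k (fderiv ℝ k (y - σ • e)) (y - σ • e) :=
      (hk1.differentiable (by norm_num)).differentiableAt.hasFDerivAt
    have h2 : HasDerivAt (fun σ : ℝ => y - σ • e) (-e) σ := by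
      have := ((hasDerivAt_id σ).smul_const e).const_sub y
      simpa using this
    have h3 := h1.comp_hasDerivAt σ h2
    have h4 := h3.const_mul (g y)
    simpa using h4

lemma integrable_apply {w : E3 → E3} (hw : MemLp w 2 volume) {L : E3 → (E3 →L[ℝ] ℝ)}
    (hL : Continuous L) (hLs : HasCompactSupport L) : Integrable (fun y => L y (w y)) := by
  have h2 : MemLp L 2 volume := hL.memLp_of_hasCompactSupport hLs
  have h3 : Integrable (fun y => ‖L y‖ * ‖w y‖) := h2.norm.integrable_mul hw.norm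
  refine h3.mono' ?_ ?_
  · exact (ContinuousLinearMap.apply ℝ ℝ : E3 →L[ℝ] (E3 →L[ℝ] ℝ) →L[ℝ] ℝ).aestronglyMeasurable_comp₂
      hw.1 h2.1
  · exact Eventually.of_forall fun y => (L y).le_opNorm _

/-- mass of `‖w‖` in the ball of radius `ρ` centred at `x + τ e`, integrated over `τ ∈ (0,ℓ]`. -/
lemma tube_mass {w : E3 → E3} (hw : MemLp w 2 volume) {x e : E3} (he : ‖e‖ = 1) {ρ ℓ : ℝ}
    (hρ : 0 < ρ) (hℓ : 0 < ℓ) :
    ∫⁻ τ in Ioc 0 ℓ, ∫⁻ y, (Metric.closedBall (x + τ • e) ρ).indicator (fun y => ‖w y‖ₑ) y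
      ≤ (ENNReal.ofReal (ℓ * ρ ^ 3) * volume (Metric.ball (0 : E3) 1)) ^ (1 / 2 : ℝ)
        * (ENNReal.ofReal (2 * ρ)) ^ (1 / 2 : ℝ) * eLpNorm w 2 volume := by
  set μ : Measure ℝ := volume.restrict (Ioc 0 ℓ) with hμ
  set B : Set (ℝ × E3) := {p | ‖p.2 - (x + p.1 • e)‖ ≤ ρ} with hB
  have hBm : MeasurableSet B := by
    apply measurableSet_le <;> fun_prop
  have hwm : AEMeasurable (fun p : ℝ × E3 => ‖w p.2‖ₑ) (μ.prod volume) :=
    (hw.1.enorm).comp_snd
  have h1 : (∫⁻ τ in Ioc 0 ℓ, ∫⁻ y, (Metric.closedBall (x + τ • e) ρ).indicator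
      (fun y => ‖w y‖ₑ) y) = ∫⁻ p, ((B.indicator (fun _ => (1 : ℝ≥0∞))) *
        (B.indicator (fun p => ‖w p.2‖ₑ))) p ∂(μ.prod volume) := by
    rw [lintegral_prod]
    · apply lintegral_congr fun τ => ?_
      apply lintegral_congr fun y => ?_
      by_cases hy : (τ, y) ∈ B
      · have hy' : y ∈ Metric.closedBall (x + τ • e) ρ := by
          rw [mem_closedBall_iff_norm]; exact hy
        simp [indicator_of_mem hy, indicator_of_mem hy']
      · have hy' : y ∉ Metric.closedBall (x + τ • e) ρ := by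
          rw [mem_closedBall_iff_norm]; exact hy
        simp [indicator_of_notMem hy, indicator_of_notMem hy']
    · exact (aemeasurable_const.indicator hBm).mul (hwm.indicator hBm)
  rw [h1]
  refine (ENNReal.lintegral_mul_le_Lp_mul_Lq (μ.prod volume) Real.HolderConjugate.two_two
    (aemeasurable_const.indicator hBm) (hwm.indicator hBm)).trans ?_
  rw [mul_assoc]
  gcongr
  · -- first factor
    have h2 : ∫⁻ p, (B.indicator (fun _ => (1 : ℝ≥0∞)) p) ^ (2 : ℝ) ∂(μ.prod volume)
        = ∫⁻ p, B.indicator (fun _ => (1 : ℝ≥0∞)) p ∂(μ.prod volume) := by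
      apply lintegral_congr fun p => ?_
      by_cases hp : p ∈ B
      · simp [indicator_of_mem hp]
      · simp [indicator_of_notMem hp]
    rw [h2, lintegral_indicator_const hBm, one_mul, Measure.prod_apply hBm]
    have h3 : ∀ τ : ℝ, volume (Prod.mk τ ⁻¹' B) = ENNReal.ofReal (ρ ^ 3) *
        volume (Metric.ball (0 : E3) 1) := by
      intro τ
      have : Prod.mk τ ⁻¹' B = Metric.closedBall (x + τ • e) ρ := by
        ext y; simp [hB, dist_eq_norm]
      rw [this, Measure.addHaar_closedBall _ _ hρ.le]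
      simp
    simp_rw [h3]
    rw [lintegral_const, hμ, Measure.restrict_apply MeasurableSet.univ, univ_inter, Real.volume_Ioc,
      sub_zero, mul_right_comm, ← ENNReal.ofReal_mul (by positivity), mul_comm (ρ ^ 3) ℓ]
  · -- second factor
    have h2 : ∫⁻ p, (B.indicator (fun p => ‖w p.2‖ₑ) p) ^ (2 : ℝ) ∂(μ.prod volume)
        ≤ ENNReal.ofReal (2 * ρ) * ∫⁻ y, ‖w y‖ₑ ^ (2 : ℝ) := by
      rw [lintegral_prod_symm]
      · rw [← lintegral_const_mul'' _ (hw.1.enorm.pow_const _)]
        apply lintegral_mono fun y => ?_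
        have h3 : ∀ τ : ℝ, (B.indicator (fun p => ‖w p.2‖ₑ) (τ, y)) ^ (2 : ℝ)
            = ((fun τ : ℝ => (τ, y)) ⁻¹' B).indicator (fun _ => ‖w y‖ₑ ^ (2 : ℝ)) τ := by
          intro τ
          by_cases hp : (τ, y) ∈ B
          · rw [indicator_of_mem hp, indicator_of_mem (by exact hp)]
          · rw [indicator_of_notMem hp, indicator_of_notMem (by exact hp)]; simp
        simp_rw [h3]
        rw [lintegral_indicator_const (hBm.preimage (by fun_prop)), mul_comm]
        gcongr
        calc μ ((fun τ : ℝ => (τ, y)) ⁻¹' B)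
            ≤ volume ((fun τ : ℝ => (τ, y)) ⁻¹' B) := Measure.restrict_apply_le _ _
          _ ≤ volume (Icc (inner ℝ e (y - x) - ρ) (inner ℝ e (y - x) + ρ)) := by
              apply measure_mono
              intro τ hτ
              have hτ' : ‖y - (x + τ • e)‖ ≤ ρ := hτ
              have h4 : |inner ℝ e (y - x) - τ| ≤ ρ := by
                have h5 : inner ℝ e (y - (x + τ • e)) = inner ℝ e (y - x) - τ := by
                  rw [show y - (x + τ • e) = (y - x) - τ • e by abel, inner_sub_right,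
                    inner_smul_right, real_inner_self_eq_norm_sq, he]
                  ring
                rw [← h5]
                calc |inner ℝ e (y - (x + τ • e))| ≤ ‖e‖ * ‖y - (x + τ • e)‖ :=
                      abs_real_inner_le_norm _ _
                  _ ≤ ρ := by rw [he, one_mul]; exact hτ'
              rw [abs_le] at h4
              exact ⟨by linarith, by linarith⟩
          _ = ENNReal.ofReal (2 * ρ) := by
              rw [Real.volume_Icc]; congr 1; ring
      · exact (hwm.indicator hBm).pow_const _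
    calc (∫⁻ p, (B.indicator (fun p => ‖w p.2‖ₑ) p) ^ (2 : ℝ) ∂(μ.prod volume)) ^ (1 / 2 : ℝ)
        ≤ (ENNReal.ofReal (2 * ρ) * ∫⁻ y, ‖w y‖ₑ ^ (2 : ℝ)) ^ (1 / 2 : ℝ) := by gcongr
      _ = ENNReal.ofReal (2 * ρ) ^ (1 / 2 : ℝ) * eLpNorm w 2 volume := by
          rw [ENNReal.mul_rpow_of_nonneg _ _ (by norm_num)]
          congr 1
          rw [eLpNorm_eq_lintegral_rpow_enorm_toReal (by norm_num) (by norm_num)]
          simp

/-- The main estimate along the direction `e`. -/
lemma tube_main {w : E3 → E3} (hw : MemLp w 2 volume) {β c : ℝ} (hβ : 0 ≤ β) (hc : 0 ≤ c)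
    (hdiv : ∀ φ : E3 → ℝ, ContDiff ℝ ∞ φ → HasCompactSupport φ → ∫ y, fderiv ℝ φ y (w y) = 0)
    {x x1 e : E3} (he : ‖e‖ = 1)
    (hperp : ∀ᵐ y, ‖w y - inner ℝ e (w y) • e‖ ≤ c * ‖x1 - y‖ ^ β * ‖w y‖)
    {ρ ℓ : ℝ} (hρ : 0 < ρ) (hρℓ : ρ ≤ ℓ) (hx1 : ‖x1 - x‖ ≤ ρ)
    {k : E3 → ℝ} (hk : ContDiff ℝ ∞ k) (hks : ∀ y, y ∉ Metric.closedBall x ρ → k y = 0)
    {N : ℝ} (hkN : ∀ y, |k y| ≤ N) (hkN1 : ∀ y, ‖fderiv ℝ k y‖ ≤ N / ρ) :
    ‖∫ y, inner ℝ e (w y) * k y‖ₑ ≤
      ENNReal.ofReal (N * (1 / ℓ + c * (3 * ℓ) ^ β / ρ)) *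
      ∫⁻ τ in Ioc 0 ℓ, ∫⁻ y, (Metric.closedBall (x + τ • e) ρ).indicator (fun y => ‖w y‖ₑ) y := by
  have hℓ : 0 < ℓ := hρ.trans_le hρℓ
  have hN : 0 ≤ N := (abs_nonneg _).trans (hkN 0)
  have hk1 : ContDiff ℝ 1 k := hk.of_le (by exact_mod_cast le_top)
  have hkc : HasCompactSupport k := by
    apply HasCompactSupport.intro (isCompact_closedBall x ρ) hks
  have hts : tsupport k ⊆ Metric.closedBall x ρ := by
    apply closure_minimal _ Metric.isClosed_closedBall
    intro y hy
    by_contra h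
    exact hy (hks y h)
  have hdks : ∀ y, y ∉ Metric.closedBall x ρ → fderiv ℝ k y = 0 := by
    intro y hy
    have : y ∉ tsupport (fderiv ℝ k) := fun h => hy (hts (tsupport_fderiv_subset ℝ h))
    exact image_eq_zero_of_notMem_tsupport this
  set g : E3 → ℝ := fun y => inner ℝ e (w y) with hg
  have hgL : MemLp g 2 volume := hw.const_inner e
  set F : ℝ → ℝ := fun τ => ∫ y, g y * k (y - τ • e) with hF
  set F' : ℝ → ℝ := fun τ => - ∫ y, g y * fderiv ℝ k (y - τ • e) e with hF'
  have hFd : ∀ τ, HasDerivAt F (F' τ) τ := fun τ => hasDerivAt_shift hgL hk hkc e τ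
  -- the derivative is itself differentiable, hence continuous
  have hk2 : ContDiff ℝ ∞ (fun y => fderiv ℝ k y e) := by
    have h1 : ContDiff ℝ ∞ (fderiv ℝ k) := hk.fderiv_right (by norm_cast)
    exact h1.clm_apply contDiff_const
  have hk2s : HasCompactSupport (fun y => fderiv ℝ k y e) := by
    apply HasCompactSupport.intro (isCompact_closedBall x ρ)
    intro y hy
    simp [hdks y hy]
  have hF'c : Continuous F' := by
    have : Continuous (fun τ : ℝ => ∫ y, g y * fderiv ℝ k (y - τ • e) e) := by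
      rw [continuous_iff_continuousAt]
      intro τ
      exact (hasDerivAt_shift hgL hk2 hk2s e τ).continuousAt
    exact this.neg
  have hFc : Continuous F := by
    rw [continuous_iff_continuousAt]
    intro τ
    exact (hFd τ).continuousAt
  -- G τ = (1 - τ/ℓ) F τ
  set G' : ℝ → ℝ := fun τ => (-(1 / ℓ)) * F τ + (1 - τ / ℓ) * F' τ with hG'
  have hGd : ∀ τ, HasDerivAt (fun τ => (1 - τ / ℓ) * F τ) (G' τ) τ := by
    intro τ
    have h1 : HasDerivAt (fun τ : ℝ => 1 - τ / ℓ) (-(1 / ℓ)) τ := by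
      have := ((hasDerivAt_id τ).div_const ℓ).const_sub 1
      simpa using this
    exact h1.mul (hFd τ)
  have hG'c : Continuous G' := by fun_prop
  have hFTC : ∫ τ in (0 : ℝ)..ℓ, G' τ = - F 0 := by
    rw [intervalIntegral.integral_eq_sub_of_hasDerivAt (fun τ _ => hGd τ)
      (hG'c.intervalIntegrable _ _)]
    rw [div_self hℓ.ne']; simp
  have hF0 : F 0 = ∫ y, inner ℝ e (w y) * k y := by simp [hF, hg]
  rw [← hF0, ← enorm_neg (F 0), ← hFTC, intervalIntegral.integral_of_le hℓ.le]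
  refine (enorm_integral_le_lintegral_enorm _).trans ?_
  rw [← lintegral_const_mul' _ _ ENNReal.ofReal_ne_top]
  apply setLIntegral_mono_ae' measurableSet_Ioc
  refine Eventually.of_forall fun τ hτ => ?_
  -- pointwise bound on G'
  set m : ℝ≥0∞ := ∫⁻ y, (Metric.closedBall (x + τ • e) ρ).indicator (fun y => ‖w y‖ₑ) y with hm
  have hmem : ∀ y : E3, y ∉ Metric.closedBall (x + τ • e) ρ → y - τ • e ∉ Metric.closedBall x ρ := by
    intro y hy h
    apply hy
    rw [mem_closedBall_iff_norm] at h ⊢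
    rwa [show y - (x + τ • e) = y - τ • e - x by abel]
  have hb1 : ‖F τ‖ₑ ≤ ENNReal.ofReal N * m := by
    refine (enorm_integral_le_lintegral_enorm _).trans ?_
    rw [← lintegral_const_mul' _ _ ENNReal.ofReal_ne_top]
    apply lintegral_mono fun y => ?_
    by_cases hy : y ∈ Metric.closedBall (x + τ • e) ρ
    · rw [indicator_of_mem hy, enorm_mul, mul_comm]
      gcongr
      · rw [Real.enorm_eq_ofReal_abs]
        exact ENNReal.ofReal_le_ofReal (hkN _)
      · rw [← ofReal_norm, ← ofReal_norm]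
        apply ENNReal.ofReal_le_ofReal
        calc ‖inner ℝ e (w y)‖ ≤ ‖e‖ * ‖w y‖ := norm_inner_le_norm _ _
          _ = ‖w y‖ := by rw [he, one_mul]
    · rw [hks _ (hmem y hy)]; simp
  have hb2 : ‖F' τ‖ₑ ≤ ENNReal.ofReal (N * (c * (3 * ℓ) ^ β / ρ)) * m := by
    -- rewrite the derivative through the perpendicular part
    have hL : Continuous (fun y => fderiv ℝ k (y - τ • e)) :=
      (hk1.continuous_fderiv (by norm_num)).comp (by fun_prop)
    have hLs : HasCompactSupport (fun y => fderiv ℝ k (y - τ • e)) :=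
      HasCompactSupport.intro (isCompact_closedBall (x + τ • e) ρ)
        fun y hy => hdks _ (hmem y hy)
    have h1 : ∫ y, fderiv ℝ k (y - τ • e) (w y) = 0 := by
      have hφ : ContDiff ℝ ∞ (fun y => k (y - τ • e)) := hk.comp (by fun_prop)
      have hφs : HasCompactSupport (fun y => k (y - τ • e)) :=
        HasCompactSupport.intro (isCompact_closedBall (x + τ • e) ρ)
          fun y hy => hks _ (hmem y hy)
      have := hdiv _ hφ hφs
      rw [← this]
      apply integral_congr_ae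
      refine Eventually.of_forall fun y => ?_
      simp only
      rw [fderiv_comp_sub]
    have h2 : F' τ = ∫ y, fderiv ℝ k (y - τ • e) (w y - inner ℝ e (w y) • e) := by
      have h3 : ∀ y, fderiv ℝ k (y - τ • e) (w y - inner ℝ e (w y) • e)
          = fderiv ℝ k (y - τ • e) (w y) - g y * fderiv ℝ k (y - τ • e) e := by
        intro y; simp [hg]
      simp_rw [h3]
      rw [integral_sub (integrable_apply hw hL hLs), h1, zero_sub]
      apply integrable_mul_of_compact hgL
      · exact hL.clm_apply continuous_const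
      · apply HasCompactSupport.intro (isCompact_closedBall (x + τ • e) ρ)
        intro y hy
        simp [hdks _ (hmem y hy)]
    rw [h2]
    refine (enorm_integral_le_lintegral_enorm _).trans ?_
    rw [← lintegral_const_mul' _ _ ENNReal.ofReal_ne_top]
    apply lintegral_mono_ae
    filter_upwards [hperp] with y hy
    by_cases hyB : y ∈ Metric.closedBall (x + τ • e) ρ
    · rw [indicator_of_mem hyB, ← ofReal_norm, ← ofReal_norm,
        ← ENNReal.ofReal_mul (by positivity)]
      apply ENNReal.ofReal_le_ofReal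
      have h4 : ‖x1 - y‖ ≤ 3 * ℓ := by
        rw [mem_closedBall_iff_norm] at hyB
        have h5 : x1 - y = (x1 - x) - (y - (x + τ • e)) - τ • e := by abel
        have h6 : ‖τ • e‖ = τ := by
          rw [norm_smul, he, mul_one, Real.norm_eq_abs, abs_of_pos hτ.1]
        calc ‖x1 - y‖ = ‖(x1 - x) - (y - (x + τ • e)) - τ • e‖ := by rw [h5]
          _ ≤ ‖(x1 - x) - (y - (x + τ • e))‖ + ‖τ • e‖ := norm_sub_le _ _
          _ ≤ ‖x1 - x‖ + ‖y - (x + τ • e)‖ + ‖τ • e‖ := by gcongr; exact norm_sub_le _ _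
          _ ≤ 3 * ℓ := by rw [h6]; linarith [hτ.2]
      calc ‖fderiv ℝ k (y - τ • e) (w y - inner ℝ e (w y) • e)‖
          ≤ ‖fderiv ℝ k (y - τ • e)‖ * ‖w y - inner ℝ e (w y) • e‖ :=
            ContinuousLinearMap.le_opNorm _ _
        _ ≤ (N / ρ) * (c * ‖x1 - y‖ ^ β * ‖w y‖) := by
            gcongr
            exact hkN1 _
        _ ≤ (N / ρ) * (c * (3 * ℓ) ^ β * ‖w y‖) := by
            gcongr
        _ = N * (c * (3 * ℓ) ^ β / ρ) * ‖w y‖ := by ring
    · rw [hdks _ (hmem y hyB)]; simp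
  have hb3 : ‖(1 - τ / ℓ : ℝ)‖ₑ ≤ 1 := by
    rw [Real.enorm_eq_ofReal_abs, ← ENNReal.ofReal_one]
    apply ENNReal.ofReal_le_ofReal
    have h7 : τ / ℓ ≤ 1 := (div_le_one hℓ).2 hτ.2
    have h8 : 0 ≤ τ / ℓ := div_nonneg hτ.1.le hℓ.le
    rw [abs_le]; constructor <;> linarith
  calc ‖G' τ‖ₑ ≤ ‖(-(1 / ℓ)) * F τ‖ₑ + ‖(1 - τ / ℓ) * F' τ‖ₑ := enorm_add_le _ _
    _ = ‖(-(1 / ℓ))‖ₑ * ‖F τ‖ₑ + ‖(1 - τ / ℓ : ℝ)‖ₑ * ‖F' τ‖ₑ := by rw [enorm_mul, enorm_mul]
    _ ≤ ENNReal.ofReal (1 / ℓ) * (ENNReal.ofReal N * m)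
        + 1 * (ENNReal.ofReal (N * (c * (3 * ℓ) ^ β / ρ)) * m) := by
        gcongr
        rw [Real.enorm_eq_ofReal_abs, abs_neg, abs_of_pos (by positivity)]
    _ = ENNReal.ofReal (N * (1 / ℓ + c * (3 * ℓ) ^ β / ρ)) * m := by
        rw [one_mul, ← mul_assoc, ← ENNReal.ofReal_mul (by positivity), ← add_mul,
          ← ENNReal.ofReal_add (by positivity) (by positivity)]
        congr 2
        ring

end Pool.Agent.Lib.P1c98a8
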