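import Pool.Agent.Lib.P1c98a8.Tube

/-!
The tube bound in its final form.
-/

open MeasureTheory Set Filter Topology
open scoped ContDiff ENNReal

namespace Pool.Agent.Lib.P1c98a8

/-- volume of the unit ball of `ℝ³` -/
noncomputable def Vb : ℝ := (volume (Metric.ball (0 : E3) 1)).toReal

lemma Vb_nonneg : 0 ≤ Vb := ENNReal.toReal_nonneg

lemma ofReal_Vb : ENNReal.ofReal Vb = volume (Metric.ball (0 : E3) 1) :=
  ENNReal.ofReal_toReal measure_ball_lt_top.ne

/-- constant in the tube bound -/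
noncomputable def Ct (β c : ℝ) : ℝ := (1 + c * 3 ^ β) * Real.sqrt (2 * Vb) + c * 2 ^ β * Real.sqrt Vb

/-- the exponent `δ = 1/(2(1+β))` -/
noncomputable def dl (β : ℝ) : ℝ := 1 / (2 * (1 + β))

lemma perp_norm_eq {a b : E3} (ha : a ≠ 0) :
    ‖b - inner ℝ (‖a‖⁻¹ • a) b • (‖a‖⁻¹ • a)‖
      = ‖b‖ * Real.sin (InnerProductGeometry.angle a b) := by
  have han : ‖a‖ ≠ 0 := norm_ne_zero_iff.2 ha
  obtain ⟨e, he⟩ : ∃ e : E3, e = ‖a‖⁻¹ • a := ⟨_, rfl⟩
  rw [← he]
  have he1 : ‖e‖ = 1 := by rw [he, norm_smul, norm_inv, norm_norm, inv_mul_cancel₀ han]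
  by_cases hb : b = 0
  · subst hb; simp
  have hbn : ‖b‖ ≠ 0 := norm_ne_zero_iff.2 hb
  have hsin : 0 ≤ Real.sin (InnerProductGeometry.angle a b) :=
    InnerProductGeometry.sin_angle_nonneg a b
  have hcos : inner ℝ e b = ‖b‖ * Real.cos (InnerProductGeometry.angle a b) := by
    rw [InnerProductGeometry.cos_angle, he, inner_smul_left]
    simp
    field_simp
  have hsq : ‖b - inner ℝ e b • e‖ ^ 2
      = (‖b‖ * Real.sin (InnerProductGeometry.angle a b)) ^ 2 := by
    have hbe : inner ℝ b e = inner ℝ e b := real_inner_comm _ _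
    have hsc := Real.sin_sq_add_cos_sq (InnerProductGeometry.angle a b)
    rw [@norm_sub_sq_real, norm_smul, he1, inner_smul_right, hbe, hcos]
    simp only [Real.norm_eq_abs, mul_one, sq_abs]
    linear_combination (-‖b‖ ^ 2) * hsc
  have h1 : 0 ≤ ‖b‖ * Real.sin (InnerProductGeometry.angle a b) := by positivity
  exact (sq_eq_sq₀ (norm_nonneg _) h1).1 hsq

lemma ball_mass {w : E3 → E3} (hw : MemLp w 2 volume) (x : E3) {ρ : ℝ} (hρ : 0 < ρ) :
    ∫⁻ y, (Metric.closedBall x ρ).indicator (fun y => ‖w y‖ₑ) y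
      ≤ ENNReal.ofReal (Real.sqrt Vb * ρ ^ (3 / 2 : ℝ)) * eLpNorm w 2 volume := by
  have h1 : ∫⁻ y, (Metric.closedBall x ρ).indicator (fun y => ‖w y‖ₑ) y
      = ∫⁻ y, (((Metric.closedBall x ρ).indicator (fun _ => (1 : ℝ≥0∞))) * (fun y => ‖w y‖ₑ)) y := by
    apply lintegral_congr fun y => ?_
    by_cases hy : y ∈ Metric.closedBall x ρ
    · simp [indicator_of_mem hy]
    · simp [indicator_of_notMem hy]
  rw [h1]
  refine (ENNReal.lintegral_mul_le_Lp_mul_Lq volume Real.HolderConjugate.two_two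
    (aemeasurable_const.indicator measurableSet_closedBall) hw.1.enorm).trans ?_
  have h2 : ∫⁻ y, ((Metric.closedBall x ρ).indicator (fun _ => (1 : ℝ≥0∞)) y) ^ (2 : ℝ)
      = ENNReal.ofReal (ρ ^ 3 * Vb) := by
    have : ∀ y, ((Metric.closedBall x ρ).indicator (fun _ => (1 : ℝ≥0∞)) y) ^ (2 : ℝ)
        = (Metric.closedBall x ρ).indicator (fun _ => (1 : ℝ≥0∞)) y := by
      intro y
      by_cases hy : y ∈ Metric.closedBall x ρ
      · simp [indicator_of_mem hy]
      · simp [indicator_of_notMem hy]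
    simp_rw [this]
    rw [lintegral_indicator_const measurableSet_closedBall, one_mul,
      Measure.addHaar_closedBall _ _ hρ.le, ENNReal.ofReal_mul (by positivity), ofReal_Vb]
    simp
  rw [h2]
  gcongr
  · rw [ENNReal.ofReal_rpow_of_nonneg (by have := Vb_nonneg; positivity) (by norm_num)]
    apply ENNReal.ofReal_le_ofReal
    rw [Real.mul_rpow (by positivity) Vb_nonneg, ← Real.sqrt_eq_rpow, ← Real.sqrt_eq_rpow,
      mul_comm]
    apply le_of_eq
    congr 1
    rw [Real.sqrt_eq_rpow, ← Real.rpow_natCast, ← Real.rpow_mul hρ.le]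
    norm_num
  · rw [eLpNorm_eq_lintegral_rpow_enorm_toReal (by norm_num) (by norm_num)]
    simp

/-- The tube bound. -/
lemma tube_bound {w : E3 → E3} (hw : MemLp w 2 volume) {β c : ℝ} (hβ : 0 < β) (hc : 0 ≤ c)
    (hdiv : ∀ φ : E3 → ℝ, ContDiff ℝ ∞ φ → HasCompactSupport φ → ∫ y, fderiv ℝ φ y (w y) = 0)
    (hdir : HolderDirection β c w) (x v : E3) (hv : ‖v‖ ≤ 1) {ρ : ℝ} (hρ : 0 < ρ) (hρ1 : ρ ≤ 1)
    {k : E3 → ℝ} (hk : ContDiff ℝ ∞ k) (hks : ∀ y, y ∉ Metric.closedBall x ρ → k y = 0)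
    {N : ℝ} (hkN : ∀ y, |k y| ≤ N) (hkN1 : ∀ y, ‖fderiv ℝ k y‖ ≤ N / ρ) :
    ‖∫ y, inner ℝ v (w y) * k y‖ₑ ≤
      ENNReal.ofReal (Ct β c * N * ρ ^ (2 - dl β)) * eLpNorm w 2 volume := by
  have hN : 0 ≤ N := (abs_nonneg _).trans (hkN 0)
  by_cases h0 : ∀ᵐ y, y ∈ Metric.closedBall x ρ → w y = 0
  · have : ∫ y, inner ℝ v (w y) * k y = 0 := by
      apply integral_eq_zero_of_ae
      filter_upwards [h0] with y hy
      by_cases hyB : y ∈ Metric.closedBall x ρ
      · simp [hy hyB]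
      · simp [hks y hyB]
    rw [this]; simp
  -- pick the base point
  obtain ⟨x1, hx1B, hx1w, hx1⟩ : ∃ x1, x1 ∈ Metric.closedBall x ρ ∧ w x1 ≠ 0 ∧
      ∀ᵐ y, w x1 ≠ 0 → w y ≠ 0 →
        Real.sin (InnerProductGeometry.angle (w x1) (w y)) ≤ c * ‖x1 - y‖ ^ β := by
    by_contra hcon
    push Not at hcon
    apply h0
    filter_upwards [hdir] with y hy hyB
    by_contra hwy
    exact (hcon y hyB hwy) (by simpa using hy)
  obtain ⟨e, he⟩ : ∃ e : E3, e = ‖w x1‖⁻¹ • w x1 := ⟨_, rfl⟩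
  have he1 : ‖e‖ = 1 := by
    rw [he, norm_smul, norm_inv, norm_norm, inv_mul_cancel₀ (norm_ne_zero_iff.2 hx1w)]
  have hperp : ∀ᵐ y, ‖w y - inner ℝ e (w y) • e‖ ≤ c * ‖x1 - y‖ ^ β * ‖w y‖ := by
    filter_upwards [hx1] with y hy
    by_cases hwy : w y = 0
    · simp [hwy]
    · rw [he, perp_norm_eq hx1w, mul_comm]
      gcongr
      exact hy hx1w hwy
  set ℓ : ℝ := ρ ^ (1 / (1 + β)) with hℓ
  have hℓ0 : 0 < ℓ := Real.rpow_pos_of_pos hρ _
  have hρℓ : ρ ≤ ℓ := by
    calc ρ = ρ ^ (1 : ℝ) := (Real.rpow_one ρ).symm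
      _ ≤ ρ ^ (1 / (1 + β)) := by
        apply Real.rpow_le_rpow_of_exponent_ge hρ hρ1
        rw [div_le_one (by linarith)]; linarith
  have hx1n : ‖x1 - x‖ ≤ ρ := by rwa [mem_closedBall_iff_norm] at hx1B
  have hmain := tube_main hw hβ.le hc hdiv he1 hperp hρ hρℓ hx1n hk hks hkN hkN1
  have hmass := tube_mass hw (x := x) he1 hρ hℓ0
  have hgL : MemLp (fun y => inner ℝ e (w y)) 2 volume := hw.const_inner e
  have hkc : HasCompactSupport k := HasCompactSupport.intro (isCompact_closedBall x ρ) hks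
  -- the parallel part
  have hpar : ‖∫ y, inner ℝ e (w y) * k y‖ₑ ≤
      ENNReal.ofReal ((1 + c * 3 ^ β) * Real.sqrt (2 * Vb) * N * ρ ^ (2 - dl β))
        * eLpNorm w 2 volume := by
    refine (hmain.trans (mul_le_mul_right hmass _)).trans ?_
    rw [← ofReal_Vb, ← ENNReal.ofReal_mul (by positivity),
      ENNReal.ofReal_rpow_of_nonneg (by have := Vb_nonneg; positivity) (by norm_num),
      ENNReal.ofReal_rpow_of_nonneg (by positivity) (by norm_num),
      ← ENNReal.ofReal_mul (by have := Vb_nonneg; positivity), ← mul_assoc,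
      ← ENNReal.ofReal_mul (by positivity)]
    refine mul_le_mul_left (ENNReal.ofReal_le_ofReal ?_) _
    apply le_of_eq
    have hV := Vb_nonneg
    have h1 : (ℓ * ρ ^ 3 * Vb) ^ (1 / 2 : ℝ) * (2 * ρ) ^ (1 / 2 : ℝ)
        = Real.sqrt (2 * Vb) * ℓ ^ (1 / 2 : ℝ) * ρ ^ 2 := by
      rw [← Real.mul_rpow (by positivity) (by positivity)]
      rw [show ℓ * ρ ^ 3 * Vb * (2 * ρ) = (2 * Vb) * ℓ * (ρ ^ 2) ^ 2 by ring]
      rw [Real.mul_rpow (by positivity) (by positivity),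
        Real.mul_rpow (by positivity) (by positivity), Real.sqrt_eq_rpow]
      congr 1
      rw [← Real.sqrt_eq_rpow, Real.sqrt_sq (by positivity)]
    have h2 : (3 * ℓ) ^ β / ρ = 3 ^ β / ℓ := by
      rw [Real.mul_rpow (by norm_num) hℓ0.le, div_eq_div_iff hρ.ne' hℓ0.ne', mul_assoc]
      congr 1
      calc ℓ ^ β * ℓ = ℓ ^ β * ℓ ^ (1 : ℝ) := by rw [Real.rpow_one]
        _ = ρ := by
          rw [← Real.rpow_add hℓ0, hℓ, ← Real.rpow_mul hρ.le]
          have : 1 / (1 + β) * (β + 1) = 1 := by field_simp; ring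
          rw [this, Real.rpow_one]
    have h3 : (1 / ℓ) * ℓ ^ (1 / 2 : ℝ) = ρ ^ (- dl β) := by
      have : (1 / ℓ) = ℓ ^ (-1 : ℝ) := by rw [Real.rpow_neg_one, one_div]
      rw [this, ← Real.rpow_add hℓ0, hℓ, ← Real.rpow_mul hρ.le]
      congr 1
      unfold dl
      field_simp
      ring
    have h4 : ρ ^ (2 - dl β) = ρ ^ 2 * ρ ^ (- dl β) := by
      rw [← Real.rpow_natCast ρ 2, ← Real.rpow_add hρ]
      norm_num [sub_eq_add_neg]
    have h5 : c * (3 * ℓ) ^ β / ρ = c * 3 ^ β * (1 / ℓ) := by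
      rw [mul_div_assoc, h2]; ring
    rw [h1, h5, h4, ← h3]
    ring
  -- the perpendicular part
  have hpp : ‖∫ y, inner ℝ v (w y - inner ℝ e (w y) • e) * k y‖ₑ ≤
      ENNReal.ofReal (c * 2 ^ β * Real.sqrt Vb * N * ρ ^ (2 - dl β)) * eLpNorm w 2 volume := by
    have h1 : ‖∫ y, inner ℝ v (w y - inner ℝ e (w y) • e) * k y‖ₑ ≤
        ENNReal.ofReal (c * (2 * ρ) ^ β * N) *
          ∫⁻ y, (Metric.closedBall x ρ).indicator (fun y => ‖w y‖ₑ) y := by
      refine (enorm_integral_le_lintegral_enorm _).trans ?_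
      rw [← lintegral_const_mul' _ _ ENNReal.ofReal_ne_top]
      apply lintegral_mono_ae
      filter_upwards [hperp] with y hy
      by_cases hyB : y ∈ Metric.closedBall x ρ
      · rw [indicator_of_mem hyB, ← ofReal_norm, ← ofReal_norm,
          ← ENNReal.ofReal_mul (by positivity)]
        apply ENNReal.ofReal_le_ofReal
        have h4 : ‖x1 - y‖ ≤ 2 * ρ := by
          rw [mem_closedBall_iff_norm] at hyB
          calc ‖x1 - y‖ = ‖(x1 - x) - (y - x)‖ := by congr 1; abel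
            _ ≤ ‖x1 - x‖ + ‖y - x‖ := norm_sub_le _ _
            _ ≤ 2 * ρ := by linarith
        rw [norm_mul]
        calc ‖(inner ℝ v (w y - inner ℝ e (w y) • e) : ℝ)‖ * ‖k y‖
            ≤ (‖v‖ * ‖w y - inner ℝ e (w y) • e‖) * N := by
              gcongr
              · exact norm_inner_le_norm _ _
              · exact hkN y
          _ ≤ (1 * (c * ‖x1 - y‖ ^ β * ‖w y‖)) * N := by gcongr
          _ ≤ (1 * (c * (2 * ρ) ^ β * ‖w y‖)) * N := by gcongr
          _ = c * (2 * ρ) ^ β * N * ‖w y‖ := by ring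
      · rw [hks y hyB]; simp
    refine (h1.trans (mul_le_mul_right (ball_mass hw x hρ) _)).trans ?_
    rw [← mul_assoc, ← ENNReal.ofReal_mul (by positivity)]
    refine mul_le_mul_left (ENNReal.ofReal_le_ofReal ?_) _
    have hV := Vb_nonneg
    have h2 : ρ ^ β * ρ ^ (3 / 2 : ℝ) ≤ ρ ^ (2 - dl β) := by
      rw [← Real.rpow_add hρ]
      apply Real.rpow_le_rpow_of_exponent_ge hρ hρ1
      unfold dl
      have : 1 / 2 - 1 / (2 * (1 + β)) ≤ β := by
        rw [div_sub_div _ _ (by norm_num) (by positivity), div_le_iff₀ (by positivity)]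
        nlinarith
      linarith
    calc c * (2 * ρ) ^ β * N * (Real.sqrt Vb * ρ ^ (3 / 2 : ℝ))
        = c * 2 ^ β * Real.sqrt Vb * N * (ρ ^ β * ρ ^ (3 / 2 : ℝ)) := by
          rw [Real.mul_rpow (by norm_num) hρ.le]; ring
      _ ≤ c * 2 ^ β * Real.sqrt Vb * N * ρ ^ (2 - dl β) := by gcongr
  -- conclusion
  have hsplit : ∫ y, inner ℝ v (w y) * k y = inner ℝ v e * (∫ y, inner ℝ e (w y) * k y)
      + ∫ y, inner ℝ v (w y - inner ℝ e (w y) • e) * k y := by
    rw [← integral_const_mul, ← integral_add]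
    · congr 1
      ext y
      rw [inner_sub_right, inner_smul_right]
      ring
    · exact (integrable_mul_of_compact hgL hk.continuous hkc).const_mul _
    · have h1 : MemLp (fun y => inner ℝ v (w y - inner ℝ e (w y) • e)) 2 volume := by
        have : MemLp (fun y => w y - inner ℝ e (w y) • e) 2 volume := by
          apply hw.sub
          have h2 := hw.continuousLinearMap_comp
            (((innerSL ℝ e : E3 →L[ℝ] ℝ)).smulRight e)
          simpa using h2
        exact this.const_inner v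
      exact integrable_mul_of_compact h1 hk.continuous hkc
  rw [hsplit]
  calc ‖inner ℝ v e * (∫ y, inner ℝ e (w y) * k y)
      + ∫ y, inner ℝ v (w y - inner ℝ e (w y) • e) * k y‖ₑ
      ≤ ‖(inner ℝ v e : ℝ)‖ₑ * ‖∫ y, inner ℝ e (w y) * k y‖ₑ
        + ‖∫ y, inner ℝ v (w y - inner ℝ e (w y) • e) * k y‖ₑ := by
        refine (enorm_add_le _ _).trans ?_
        rw [enorm_mul]
    _ ≤ 1 * (ENNReal.ofReal ((1 + c * 3 ^ β) * Real.sqrt (2 * Vb) * N * ρ ^ (2 - dl β))
        * eLpNorm w 2 volume) +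
        ENNReal.ofReal (c * 2 ^ β * Real.sqrt Vb * N * ρ ^ (2 - dl β)) * eLpNorm w 2 volume := by
        gcongr
        rw [Real.enorm_eq_ofReal_abs, ← ENNReal.ofReal_one]
        apply ENNReal.ofReal_le_ofReal
        calc |inner ℝ v e| ≤ ‖v‖ * ‖e‖ := abs_real_inner_le_norm _ _
          _ ≤ 1 := by rw [he1, mul_one]; exact hv
    _ = _ := by
        have hV := Vb_nonneg
        rw [one_mul, ← add_mul, ← ENNReal.ofReal_add (by positivity) (by positivity)]
        congr 2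
        unfold Ct
        ring

end Pool.Agent.Lib.P1c98a8
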